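import Mathlib

/-!
# Definitions for the lifting theorem (cluster type varieties lift over `W₂(k)`)
-/

universe u

open AlgebraicGeometry CategoryTheory Limits

namespace ClusterLift

/-! ### Forms on the function field -/

section Forms

/-- The element `η₁ ∧ … ∧ ηₙ` of the exterior algebra of a `K`-vector space `M`. -/
noncomputable def wedge (K : Type u) {M : Type u} [Field K] [AddCommGroup M] [Module K M] {n : ℕ}
    (η : Fin n → M) : ExteriorAlgebra K M :=
  (List.ofFn fun i => ExteriorAlgebra.ι K (η i)).prod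

/-- `dz₁ ∧ … ∧ dzₙ = a • dx₁/x₁ ∧ … ∧ dxₙ/xₙ` in `⋀ Ω_{K/k}`. -/
def IsTopFormField (k : Type u) [Field k] {K : Type u} [Field K] [Algebra k K] {n : ℕ}
    (x z : Fin n → K) (a : K) : Prop :=
  wedge K (fun i => KaehlerDifferential.D k K (z i)) =
    a • wedge K (fun i => (x i)⁻¹ • KaehlerDifferential.D k K (x i))

end Forms

/-! ### Varieties over `k` -/

section Varieties

variable {k : Type u} [Field k] {X : Scheme.{u}} [IsIntegral X]

/-- The function field `K(X)` of `X` as a `k`-algebra, for a morphism `s : X ⟶ Spec k`: the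
homomorphism `k → K(X)` is the one given by the composite `Spec K(X) ⟶ X ⟶ Spec k`. -/
@[reducible]
noncomputable def functionFieldAlgebra (s : X ⟶ Spec (CommRingCat.of k)) :
    Algebra k X.functionField :=
  (Spec.preimage (X.fromSpecStalk (genericPoint X) ≫ s)).hom.toAlgebra

/-- `x₁, …, xₙ ∈ K(X)` are the coordinates of a birational map `X ⇢ ℙⁿ` over `k`: they are
algebraically independent over `k` and generate `K(X)` as a field extension of `k`, i.e.
`K(X) = k(x₁, …, xₙ)` is the function field of the torus `𝔾ₘⁿ ⊆ ℙⁿ`. -/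
def IsBirationalCoordinates (s : X ⟶ Spec (CommRingCat.of k)) {n : ℕ}
    (x : Fin n → X.functionField) : Prop :=
  letI := functionFieldAlgebra s
  AlgebraicIndependent k x ∧ IntermediateField.adjoin k (Set.range x) = ⊤

/-- The inclusion of the local ring `𝒪_{X,E}` in the function field `K(X)`. -/
noncomputable def toK {E : X} (r : X.presheaf.stalk E) : X.functionField :=
  algebraMap (X.presheaf.stalk E) X.functionField r

/-- `dz₁ ∧ … ∧ dzₙ = a • dx₁/x₁ ∧ … ∧ dxₙ/xₙ` in `⋀ⁿ Ω_{K(X)/k}`. -/
def IsTopForm (s : X ⟶ Spec (CommRingCat.of k)) {n : ℕ} (x z : Fin n → X.functionField)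
    (a : X.functionField) : Prop :=
  letI := functionFieldAlgebra s
  IsTopFormField k x z a

/-- `B = ∑ B(E) E` is the Weil divisor `- div_X(dx₁/x₁ ∧ … ∧ dxₙ/xₙ)`: for every prime divisor of
`X`, i.e. every point `E` with one-dimensional local ring `R = 𝒪_{X,E}`, and every uniformiser `t`
of `R`, the `R`-submodule of `⋀ⁿ Ω_{K(X)/k}` generated by the forms `dz₁ ∧ … ∧ dzₙ`, `zᵢ ∈ R`
(that is, the stalk at `E` of the canonical sheaf), is generated by `t ^ B(E) • Ω`, where `Ω`
denotes `dx₁/x₁ ∧ … ∧ dxₙ/xₙ`. -/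
def IsPolarDivisor (s : X ⟶ Spec (CommRingCat.of k)) {n : ℕ}
    (x : Fin n → X.functionField) (B : X → ℤ) : Prop :=
  ∀ E : X, ringKrullDim (X.presheaf.stalk E) = 1 → ∀ t : X.presheaf.stalk E, Irreducible t →
    (∀ z : Fin n → X.presheaf.stalk E, ∃ r : X.presheaf.stalk E,
      IsTopForm s x (fun i => toK (z i)) (toK r * toK t ^ B E)) ∧
    ∃ (z : Fin n → X.presheaf.stalk E) (r : X.presheaf.stalk E), IsUnit r ∧
      IsTopForm s x (fun i => toK (z i)) (toK r * toK t ^ B E)

end Varieties

/-! ### Liftings over `W₂(k)` -/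

section Lift

variable (p : ℕ) [Fact p.Prime] {k : Type u} [Field k]

/-- The residue map `W₂(k) → k`, `(a₀, a₁) ↦ a₀`, of the ring `W₂(k)` of Witt vectors of
length two. -/
noncomputable def residue (k : Type u) [Field k] : TruncatedWittVector p 2 k →+* k where
  toFun w := w.coeff 0
  map_one' := by
    rw [← map_one (WittVector.truncate 2 : WittVector p k →+* _), WittVector.coeff_truncate]
    exact map_one (WittVector.constantCoeff (p := p))
  map_zero' := by
    rw [← map_zero (WittVector.truncate 2 : WittVector p k →+* _), WittVector.coeff_truncate]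
    exact map_zero (WittVector.constantCoeff (p := p))
  map_mul' v w := by
    obtain ⟨v, rfl⟩ := WittVector.truncate_surjective p 2 k v
    obtain ⟨w, rfl⟩ := WittVector.truncate_surjective p 2 k w
    rw [← map_mul]
    simp only [WittVector.coeff_truncate]
    exact map_mul (WittVector.constantCoeff (p := p)) v w
  map_add' v w := by
    obtain ⟨v, rfl⟩ := WittVector.truncate_surjective p 2 k v
    obtain ⟨w, rfl⟩ := WittVector.truncate_surjective p 2 k w
    rw [← map_add]
    simp only [WittVector.coeff_truncate]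
    exact map_add (WittVector.constantCoeff (p := p)) v w

/-- The `k`-scheme `s : X ⟶ Spec k` *lifts over `W₂(k)`*: there are a scheme `X'`, flat over
`W₂(k)`, and an isomorphism of `k`-schemes `X ≅ X' ×_{W₂(k)} Spec k` (that is, a cartesian square
`X ⟶ X'` over `Spec k ⟶ Spec W₂(k)`). -/
def LiftsOverW2 {X : Scheme.{u}} (s : X ⟶ Spec (CommRingCat.of k)) : Prop :=
  ∃ (X' : Scheme.{u}) (f : X' ⟶ Spec (CommRingCat.of (TruncatedWittVector p 2 k))) (i : X ⟶ X'),
    Flat f ∧ IsPullback i s f (Spec.map (CommRingCat.ofHom (residue p k)))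

end Lift

end ClusterLift
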