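import Mathlib

universe v

namespace Pool.Agent.Helper271.CT

section Basic

/-- Coordinates `x₁, …, xₙ` of a field `K` of characteristic `p` over `K^p`, with the dual
derivations `d j = ∂/∂xⱼ`. -/
structure PCoord (p : ℕ) (K : Type*) [Field K] (n : ℕ) where
  x : Fin n → K
  d : Fin n → Derivation ℤ K K
  d_x : ∀ i j, d j (x i) = if i = j then 1 else 0
  span : ∀ g : K, ∃ c : (Fin n → Fin p) → K, g = ∑ a, (c a) ^ p * ∏ i, (x i) ^ (a i : ℕ)

variable {p : ℕ} [Fact p.Prime] {K : Type*} [Field K] [CharP K p] {n : ℕ}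


theorem PCoord.x_ne (X : PCoord p K n) (i : Fin n) : X.x i ≠ 0 := by
  intro h
  have h1 := X.d_x i i
  rw [h, map_zero, if_pos rfl] at h1
  exact zero_ne_one h1

theorem PCoord.theta_pow (X : PCoord p K n) (i j : Fin n) (e : ℕ) :
    X.x j * X.d j (X.x i ^ e) = if i = j then (e : K) * X.x j ^ e else 0 := by
  rw [Derivation.leibniz_pow, X.d_x]
  split_ifs with h
  · subst h
    rcases Nat.eq_zero_or_pos e with he | he
    · subst he
      simp
    · obtain ⟨m, rfl⟩ : ∃ m, e = m + 1 := ⟨e - 1, by omega⟩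
      simp only [Nat.add_sub_cancel, smul_eq_mul, nsmul_eq_mul, mul_one]
      ring
  · simp

theorem PCoord.theta_prod (X : PCoord p K n) (j : Fin n) (e : Fin n → ℕ) (s : Finset (Fin n)) :
    X.x j * X.d j (∏ i ∈ s, X.x i ^ e i) =
      (if j ∈ s then (e j : K) else 0) * ∏ i ∈ s, X.x i ^ e i := by
  classical
  induction s using Finset.induction_on with
  | empty => simp
  | insert i s hi ih =>
    rw [Finset.prod_insert hi, Derivation.leibniz, smul_eq_mul, smul_eq_mul]
    have h1 : X.x j * (X.x i ^ e i * X.d j (∏ i ∈ s, X.x i ^ e i) +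
        (∏ i ∈ s, X.x i ^ e i) * X.d j (X.x i ^ e i)) =
        X.x i ^ e i * (X.x j * X.d j (∏ i ∈ s, X.x i ^ e i)) +
        (∏ i ∈ s, X.x i ^ e i) * (X.x j * X.d j (X.x i ^ e i)) := by ring
    rw [h1, ih, X.theta_pow]
    by_cases hij : i = j
    · subst hij
      rw [if_pos rfl, if_neg hi, if_pos (Finset.mem_insert_self i s)]
      ring
    · rw [if_neg hij]
      have h2 : (j ∈ insert i s) ↔ j ∈ s := by
        rw [Finset.mem_insert]
        constructor
        · rintro (h | h)
          · exact absurd h.symm hij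
          · exact h
        · exact Or.inr
      by_cases hj : j ∈ s
      · rw [if_pos hj, if_pos (h2.mpr hj)]
        ring
      · rw [if_neg hj, if_neg (fun h => hj (h2.mp h))]
        ring

theorem PCoord.theta_mono (X : PCoord p K n) (j : Fin n) (c N : K) (hN : X.d j N = 0)
    (a : Fin n → Fin p) :
    X.x j * X.d j (N * (c ^ p * ∏ i, X.x i ^ (a i : ℕ))) =
      N * (((a j : ℕ) : K) * (c ^ p * ∏ i, X.x i ^ (a i : ℕ))) := by
  have hc : X.d j (c ^ p) = 0 := by
    rw [Derivation.leibniz_pow, smul_eq_mul, nsmul_eq_mul, CharP.cast_eq_zero, zero_mul]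
  have h := X.theta_prod j (fun i => (a i : ℕ)) Finset.univ
  rw [if_pos (Finset.mem_univ j)] at h
  rw [Derivation.leibniz, Derivation.leibniz, hN, hc]
  simp only [smul_eq_mul, mul_zero, add_zero]
  calc X.x j * (N * (c ^ p * X.d j (∏ i, X.x i ^ (a i : ℕ))))
      = N * (c ^ p * (X.x j * X.d j (∏ i, X.x i ^ (a i : ℕ)))) := by ring
    _ = _ := by rw [h]; ring

theorem PCoord.pow_step (X : PCoord p K n) (c : (Fin n → Fin p) → K) (j : Fin n)
    (A : Finset (Fin n → Fin p))
    (h : ∑ a ∈ A, (c a) ^ p * ∏ i, (X.x i) ^ (a i : ℕ) = 0) (k : ℕ) :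
    ∑ a ∈ A, ((a j : ℕ) : K) ^ k * ((c a) ^ p * ∏ i, (X.x i) ^ (a i : ℕ)) = 0 := by
  induction k with
  | zero => simpa using h
  | succ k ih =>
    have h1 := congrArg (fun z => X.x j * X.d j z) ih
    simp only [map_sum, map_zero, mul_zero, Finset.mul_sum] at h1
    rw [← h1]
    apply Finset.sum_congr rfl
    intro a _
    have hN : X.d j (((a j : ℕ) : K) ^ k) = 0 := by
      rw [← Nat.cast_pow]
      exact Derivation.map_natCast _ _
    rw [X.theta_mono j (c a) _ hN a]
    ring

theorem PCoord.split_step (X : PCoord p K n) (c : (Fin n → Fin p) → K) (j : Fin n)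
    (A : Finset (Fin n → Fin p))
    (h : ∑ a ∈ A, (c a) ^ p * ∏ i, (X.x i) ^ (a i : ℕ) = 0) (v : Fin p) :
    ∑ a ∈ A.filter (fun a => a j = v), (c a) ^ p * ∏ i, (X.x i) ^ (a i : ℕ) = 0 := by
  have hinj : Function.Injective (fun v : Fin p => ((v : ℕ) : K)) := by
    intro u w huw
    have h1 : ((u : ℕ) : K) = ((w : ℕ) : K) := huw
    rw [CharP.natCast_eq_natCast K p] at h1
    have h2 : (u : ℕ) % p = (w : ℕ) % p := h1
    rw [Nat.mod_eq_of_lt u.2, Nat.mod_eq_of_lt w.2] at h2
    exact Fin.ext h2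
  have key := Matrix.eq_zero_of_forall_pow_sum_mul_pow_eq_zero
    (f := fun v : Fin p => ((v : ℕ) : K))
    (v := fun v : Fin p => ∑ a ∈ A.filter (fun a => a j = v),
      (c a) ^ p * ∏ i, (X.x i) ^ (a i : ℕ)) hinj (by
      intro k
      have h1 := X.pow_step c j A h (k : ℕ)
      rw [← Finset.sum_fiberwise A (fun a => a j)] at h1
      rw [← h1]
      apply Finset.sum_congr rfl
      intro w _
      rw [Finset.sum_mul]
      apply Finset.sum_congr rfl
      intro a ha
      rw [(Finset.mem_filter.mp ha).2]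
      ring)
  exact congrFun key v

theorem PCoord.indep (X : PCoord p K n) (c : (Fin n → Fin p) → K)
    (h : ∑ a, (c a) ^ p * ∏ i, (X.x i) ^ (a i : ℕ) = 0) (a : Fin n → Fin p) : c a = 0 := by
  classical
  have main : ∀ s : Finset (Fin n),
      ∑ b ∈ Finset.univ.filter (fun b : Fin n → Fin p => ∀ i ∈ s, b i = a i),
        (c b) ^ p * ∏ i, (X.x i) ^ (b i : ℕ) = 0 := by
    intro s
    induction s using Finset.induction_on with
    | empty => simpa using h
    | insert i s hi ih =>
      have h1 := X.split_step c i _ ih (a i)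
      rw [Finset.filter_filter] at h1
      rw [← h1]
      apply Finset.sum_congr _ (fun _ _ => rfl)
      ext b
      simp only [Finset.mem_filter, Finset.mem_univ, true_and, Finset.mem_insert]
      constructor
      · intro hb
        exact ⟨fun k hk => hb k (Or.inr hk), hb i (Or.inl rfl)⟩
      · rintro ⟨h2, h3⟩ k (rfl | hk)
        · exact h3
        · exact h2 k hk
  have h1 := main Finset.univ
  have h2 : Finset.univ.filter (fun b : Fin n → Fin p => ∀ i ∈ Finset.univ, b i = a i) = {a} := by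
    ext b
    simp only [Finset.mem_filter, Finset.mem_univ, true_and, Finset.mem_singleton, true_imp_iff]
    exact ⟨fun hb => funext hb, fun hb i => congrFun hb i⟩
  rw [h2, Finset.sum_singleton] at h1
  have h3 : ∏ i, (X.x i) ^ (a i : ℕ) ≠ 0 :=
    Finset.prod_ne_zero_iff.mpr fun i _ => pow_ne_zero _ (X.x_ne i)
  exact eq_zero_of_pow_eq_zero ((mul_eq_zero.mp h1).resolve_right h3)

theorem PCoord.uniq (X : PCoord p K n) (c c' : (Fin n → Fin p) → K)
    (h : ∑ a, (c a) ^ p * ∏ i, (X.x i) ^ (a i : ℕ) =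
      ∑ a, (c' a) ^ p * ∏ i, (X.x i) ^ (a i : ℕ)) : c = c' := by
  funext a
  have h1 := X.indep (fun a => c a - c' a) (by
    have : ∀ a, (c a - c' a) ^ p * ∏ i, (X.x i) ^ (a i : ℕ) =
        (c a) ^ p * ∏ i, (X.x i) ^ (a i : ℕ) - (c' a) ^ p * ∏ i, (X.x i) ^ (a i : ℕ) := by
      intro a
      rw [sub_pow_char, sub_mul]
    simp only [this]
    rw [Finset.sum_sub_distrib, h, sub_self]) a
  exact sub_eq_zero.mp h1

theorem PCoord.exists_tau (X : PCoord p K n) :
    ∃ τ : K →+ K, (∀ a b, τ (a ^ p * b) = a * τ b) ∧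
      ∀ a : Fin n → Fin p, τ (∏ i, X.x i ^ (a i : ℕ)) = if ∀ i, (a i : ℕ) = p - 1 then 1 else 0 := by
  classical
  have hp : 0 < p := Nat.Prime.pos Fact.out
  choose c hc using X.span
  set top : Fin n → Fin p := fun _ => ⟨p - 1, by omega⟩ with htop
  have huniq : ∀ (g : K) (c' : (Fin n → Fin p) → K),
      g = ∑ a, (c' a) ^ p * ∏ i, (X.x i) ^ (a i : ℕ) → c g = c' := by
    intro g c' h
    exact X.uniq _ _ ((hc g).symm.trans h)
  have hadd : ∀ g g', c (g + g') = fun a => c g a + c g' a := by
    intro g g'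
    apply huniq
    conv_lhs => rw [hc g, hc g']
    rw [← Finset.sum_add_distrib]
    apply Finset.sum_congr rfl
    intro a _
    rw [add_pow_char, add_mul]
  refine ⟨AddMonoidHom.mk' (fun g => c g top) (fun g g' => by
    show c (g + g') top = c g top + c g' top
    rw [hadd]), ?_, ?_⟩
  · intro a b
    show c (a ^ p * b) top = a * c b top
    have h1 : c (a ^ p * b) = fun e => a * c b e := by
      apply huniq
      conv_lhs => rw [hc b]
      rw [Finset.mul_sum]
      apply Finset.sum_congr rfl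
      intro e _
      rw [mul_pow]
      ring
    rw [h1]
  · intro a
    show c (∏ i, X.x i ^ (a i : ℕ)) top = _
    have h1 : c (∏ i, X.x i ^ (a i : ℕ)) = fun e => if e = a then 1 else 0 := by
      apply huniq
      rw [Finset.sum_eq_single a]
      · rw [if_pos rfl, one_pow, one_mul]
      · intro b _ hb
        rw [if_neg hb, zero_pow hp.ne', zero_mul]
      · intro h
        exact absurd (Finset.mem_univ a) h
    rw [h1]
    show (if top = a then (1 : K) else 0) = _
    have h2 : (top = a) ↔ ∀ i, (a i : ℕ) = p - 1 := by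
      constructor
      · intro h i
        rw [← h]
      · intro h
        funext i
        exact Fin.ext (h i).symm
    by_cases h3 : ∀ i, (a i : ℕ) = p - 1
    · rw [if_pos (h2.mpr h3), if_pos h3]
    · rw [if_neg (fun h => h3 (h2.mp h)), if_neg h3]

/-- The coefficient of `x₁^(p-1) ⋯ xₙ^(p-1)` (its `p`-th root). -/
noncomputable def PCoord.τ (X : PCoord p K n) : K →+ K := X.exists_tau.choose

theorem PCoord.tau_pow_mul (X : PCoord p K n) (a b : K) : X.τ (a ^ p * b) = a * X.τ b :=
  X.exists_tau.choose_spec.1 a b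

theorem PCoord.tau_mono (X : PCoord p K n) (a : Fin n → Fin p) :
    X.τ (∏ i, X.x i ^ (a i : ℕ)) = if ∀ i, (a i : ℕ) = p - 1 then 1 else 0 :=
  X.exists_tau.choose_spec.2 a


/-! ### integrality of `τ` -/


/-! ### iterates -/

theorem aux_d_pow (D : Derivation ℤ K K) (c : K) : D (c ^ p) = 0 := by
  rw [Derivation.leibniz_pow]
  have : ((p : ℕ) : K) = 0 := CharP.cast_eq_zero K p
  simp [← Nat.cast_smul_eq_nsmul K, this]

theorem aux_d_mul (D : Derivation ℤ K K) (c b : K) : D (c ^ p * b) = c ^ p * D b := by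
  rw [Derivation.leibniz, aux_d_pow]; simp

theorem aux_iter_mul (D : Derivation ℤ K K) (c b : K) (k : ℕ) :
    D^[k] (c ^ p * b) = c ^ p * D^[k] b := by
  induction k with
  | zero => rfl
  | succ k ih => rw [Function.iterate_succ_apply', Function.iterate_succ_apply', ih, aux_d_mul]

theorem aux_iter_mem (D : Derivation ℤ K K) (R : Subring K) (hD : ∀ g ∈ R, D g ∈ R) (g : K)
    (hg : g ∈ R) (k : ℕ) : D^[k] g ∈ R := by
  induction k with
  | zero => exact hg
  | succ k ih => rw [Function.iterate_succ_apply']; exact hD _ ih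

theorem aux_iter_sum {ι : Type*} (D : Derivation ℤ K K) (s : Finset ι) (f : ι → K) (k : ℕ) :
    D^[k] (∑ i ∈ s, f i) = ∑ i ∈ s, D^[k] (f i) := by
  induction k with
  | zero => rfl
  | succ k ih => 
    rw [Function.iterate_succ_apply', ih, map_sum]
    exact Finset.sum_congr rfl fun i _ => by rw [Function.iterate_succ_apply']

theorem aux_iter_mono (D : Derivation ℤ K K) (x c : K) (hx : D x = 1) (hc : D c = 0) (k m : ℕ) :
    D^[m] (x ^ k * c) = (k.descFactorial m : K) * x ^ (k - m) * c := by
  induction m with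
  | zero => simp
  | succ m ih =>
    rw [Function.iterate_succ_apply', ih, Derivation.leibniz, hc, Derivation.leibniz,
      Derivation.leibniz_pow, hx, Derivation.map_natCast, Nat.descFactorial_succ, Nat.sub_succ]
    simp only [smul_eq_mul, mul_zero, zero_add, mul_one, add_zero, nsmul_eq_mul, Nat.cast_mul,
      Nat.pred_eq_sub_one]
    ring_nf
    congr 2
    omega

theorem aux_fact : ((p - 1).factorial : K) = -1 := by
  have h : ((p - 1).factorial : ZMod p) = -1 := ZMod.wilsons_lemma p
  have := congrArg (ZMod.castHom (dvd_refl p) K) h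
  rwa [map_natCast, map_neg, map_one] at this

theorem aux_iter_last (D : Derivation ℤ K K) (x c : K) (hx : D x = 1) (hc : D c = 0) (k : ℕ)
    (hk : k < p) :
    D^[p - 1] (x ^ k * c) = if k = p - 1 then -c else 0 := by
  rw [aux_iter_mono D x c hx hc]
  split_ifs with h
  · subst h
    rw [Nat.descFactorial_self, aux_fact, Nat.sub_self]; simp
  · have : k < p - 1 := by omega
    rw [Nat.descFactorial_of_lt this]; simp

noncomputable def PCoord.F (X : PCoord p K n) : List (Fin n) → K → K
  | [], g => g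
  | i :: L, g => (X.d i)^[p - 1] (PCoord.F X L g)

theorem PCoord.F_mem (X : PCoord p K n) (R : Subring K) 
    (hd : ∀ i, ∀ g ∈ R, X.d i g ∈ R) (g : K) (hg : g ∈ R) (L : List (Fin n)) : X.F L g ∈ R := by
  induction L with
  | nil => exact hg
  | cons i L ih => exact aux_iter_mem _ R (hd i) _ ih _

theorem PCoord.F_mul (X : PCoord p K n) (c b : K) (L : List (Fin n)) :
    X.F L (c ^ p * b) = c ^ p * X.F L b := by
  induction L with
  | nil => rfl
  | cons i L ih => simp only [PCoord.F]; rw [ih, aux_iter_mul]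

theorem PCoord.F_sum {ι : Type*} (X : PCoord p K n) (s : Finset ι) (f : ι → K) (L : List (Fin n)) :
    X.F L (∑ i ∈ s, f i) = ∑ i ∈ s, X.F L (f i) := by
  induction L with
  | nil => rfl
  | cons i L ih => simp only [PCoord.F]; rw [ih, aux_iter_sum]

theorem PCoord.F_mono (X : PCoord p K n) (a : Fin n → Fin p) (L : List (Fin n)) (hL : L.Nodup) :
    X.F L (∏ i, X.x i ^ (a i : ℕ)) = if ∀ i ∈ L, (a i : ℕ) = p - 1 then
      (-1) ^ L.length * ∏ i ∈ Finset.univ \ L.toFinset, X.x i ^ (a i : ℕ) else 0 := by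
  induction L with
  | nil => simp [PCoord.F]
  | cons j L ih =>
    rw [List.nodup_cons] at hL
    simp only [PCoord.F]
    rw [ih hL.2]
    by_cases h : ∀ i ∈ L, (a i : ℕ) = p - 1
    · rw [if_pos h]
      have hj : j ∈ Finset.univ \ L.toFinset := by simp [hL.1]
      have hS : Finset.univ \ (j :: L).toFinset = (Finset.univ \ L.toFinset).erase j := by
        ext i; simp
      rw [← Finset.mul_prod_erase _ _ hj, mul_left_comm, hS]
      have hc : X.d j ((-1) ^ L.length * ∏ i ∈ (Finset.univ \ L.toFinset).erase j,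
          X.x i ^ (a i : ℕ)) = 0 := by
        have h1 : X.d j (∏ i ∈ (Finset.univ \ L.toFinset).erase j, X.x i ^ (a i : ℕ)) = 0 := by
          have : ∀ s : Finset (Fin n), j ∉ s → X.d j (∏ i ∈ s, X.x i ^ (a i : ℕ)) = 0 := by
            intro s
            induction s using Finset.induction_on with
            | empty => intro _; simp
            | insert i s his ihs =>
              intro hjs
              rw [Finset.mem_insert, not_or] at hjs
              rw [Finset.prod_insert his, Derivation.leibniz, ihs hjs.2, Derivation.leibniz_pow,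
                X.d_x, if_neg (Ne.symm hjs.1)]
              simp
          exact this _ (by simp)
        have h2 : X.d j ((-1) ^ L.length) = 0 := by
          rw [Derivation.leibniz_pow]; simp
        rw [Derivation.leibniz, h1, h2]; simp
      rw [aux_iter_last (X.d j) (X.x j) _ (by rw [X.d_x, if_pos rfl]) hc _ (a j).2]
      by_cases hj' : (a j : ℕ) = p - 1
      · rw [if_pos hj', if_pos (by
          intro i hi
          rcases List.mem_cons.1 hi with rfl | hi
          · exact hj'
          · exact h i hi), List.length_cons, pow_succ]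
        ring
      · rw [if_neg hj', if_neg (fun H => hj' (H j (by simp)))]
    · rw [if_neg h, if_neg (fun H => h fun i hi => H i (by simp [hi]))]
      have : ∀ k, (X.d j)^[k] (0 : K) = 0 := by
        intro k
        induction k with
        | zero => rfl
        | succ k ih => rw [Function.iterate_succ_apply', ih, map_zero]
      exact this _

theorem PCoord.tau_pow (X : PCoord p K n) (g : K) :
    X.F (List.finRange n) g = (-1) ^ n * (X.τ g) ^ p := by
  obtain ⟨c, hc⟩ := X.span g
  rw [hc, PCoord.F_sum, map_sum, sum_pow_char p, Finset.mul_sum]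
  refine Finset.sum_congr rfl fun a _ => ?_
  rw [PCoord.F_mul, PCoord.tau_pow_mul, PCoord.F_mono X a _ (List.nodup_finRange n), PCoord.tau_mono]
  have hS : Finset.univ \ (List.finRange n).toFinset = ∅ := by ext i; simp
  rw [hS, List.length_finRange]
  by_cases h : ∀ i, (a i : ℕ) = p - 1
  · rw [if_pos h, if_pos (fun i _ => h i)]; simp; ring
  · rw [if_neg h, if_neg (fun H => h fun i => H i (by simp))]
    have hp : p ≠ 0 := (Fact.out : p.Prime).ne_zero
    simp [hp]

theorem PCoord.tau_mem (X : PCoord p K n) (R : Subring K) (hR : ∀ c : K, c ^ p ∈ R → c ∈ R)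
    (hd : ∀ i, ∀ g ∈ R, X.d i g ∈ R) (g : K) (hg : g ∈ R) : X.τ g ∈ R := by
  apply hR
  have h := X.tau_pow g
  have h1 : (X.τ g) ^ p = (-1) ^ n * X.F (List.finRange n) g := by
    rw [h, ← mul_assoc, ← mul_pow]; simp
  rw [h1]
  exact R.mul_mem (R.pow_mem (R.neg_mem R.one_mem) _) (X.F_mem R hd g hg _)


/-! ### vanishing of `τ` on determinants -/

theorem PCoord.d_pow_mul (X : PCoord p K n) (j : Fin n) (c g : K) :
    X.d j (c ^ p * g) = c ^ p * X.d j g := by
  rw [Derivation.leibniz, Derivation.leibniz_pow]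
  have h : (p : K) = 0 := CharP.cast_eq_zero K p
  simp [nsmul_eq_mul, h]

theorem PCoord.d_mono (X : PCoord p K n) (j : Fin n) (b : Fin n → ℕ) (s : Finset (Fin n)) :
    X.d j (∏ l ∈ s, X.x l ^ b l) * X.x j =
      (if j ∈ s then (b j : K) else 0) * ∏ l ∈ s, X.x l ^ b l := by
  classical
  induction s using Finset.induction_on with
  | empty => simp
  | insert l s hl ih =>
    have h1 : X.d j (X.x l ^ b l) * X.x j =
        (if l = j then (b l : K) else 0) * X.x l ^ b l := by
      rw [Derivation.leibniz_pow, X.d_x]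
      by_cases h : l = j
      · subst h
        rw [if_pos rfl, if_pos rfl]
        cases hb : b l with
        | zero => simp
        | succ k =>
          simp only [nsmul_eq_mul, smul_eq_mul, Nat.add_sub_cancel]
          ring
      · rw [if_neg h, if_neg h]
        simp
    rw [Finset.prod_insert hl, Derivation.leibniz, add_mul, smul_eq_mul, smul_eq_mul,
      mul_assoc, ih, mul_assoc, h1]
    by_cases h : l = j
    · subst h
      rw [if_neg hl, if_pos rfl, if_pos (Finset.mem_insert_self _ _)]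
      ring
    · rw [if_neg h]
      by_cases hj : j ∈ s
      · rw [if_pos hj, if_pos (Finset.mem_insert_of_mem hj)]
        ring
      · rw [if_neg hj, if_neg (fun h' => by
          rcases Finset.mem_insert.mp h' with h'' | h''
          · exact h h''.symm
          · exact hj h'')]
        ring

theorem PCoord.det_mono (X : PCoord p K n) (b : Fin n → Fin n → ℕ) :
    (Matrix.of fun i j => X.d j (∏ l, X.x l ^ b i l)).det =
      (((Matrix.of fun i j => (b i j : ℤ)).det : ℤ) : K) *
        ∏ l, (X.x l ^ (∑ i, b i l) * (X.x l)⁻¹) := by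
  have hA : (Matrix.of fun i j => X.d j (∏ l, X.x l ^ b i l)) =
      Matrix.of fun i j => (∏ l, X.x l ^ b i l) *
        (Matrix.of fun i j => (X.x j)⁻¹ * (Matrix.of fun i j => (b i j : K)) i j) i j := by
    ext i j
    simp only [Matrix.of_apply]
    have h := X.d_mono j (b i) Finset.univ
    rw [if_pos (Finset.mem_univ _)] at h
    have hx := X.x_ne j
    field_simp
    rw [h]
    ring
  rw [hA, Matrix.det_mul_column, Matrix.det_mul_row]
  have h1 : ∏ i, ∏ l, X.x l ^ b i l = ∏ l, X.x l ^ (∑ i, b i l) := by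
    rw [Finset.prod_comm]
    apply Finset.prod_congr rfl
    intro l _
    rw [Finset.prod_pow_eq_pow_sum]
  have h2 : (Matrix.of fun i j => (b i j : K)).det =
      (((Matrix.of fun i j => (b i j : ℤ)).det : ℤ) : K) := by
    rw [Int.cast_det]
    congr 1
    ext i j
    simp
  rw [h1, h2, Finset.prod_mul_distrib]
  ring

theorem PCoord.tau_prod_zero (X : PCoord p K n) (s : Fin n → ℕ) (j0 : Fin n)
    (h : ¬ p ∣ s j0) : X.τ (∏ l, (X.x l ^ s l * (X.x l)⁻¹)) = 0 := by
  have hp : p.Prime := Fact.out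
  have hp1 : 1 ≤ p := hp.one_lt.le
  have e : ∏ l, (X.x l ^ s l * (X.x l)⁻¹) =
      (∏ l, (X.x l ^ ((s l + (p - 1)) / p) * (X.x l)⁻¹)) ^ p *
        ∏ l, X.x l ^ ((s l + (p - 1)) % p) := by
    rw [← Finset.prod_pow, ← Finset.prod_mul_distrib]
    apply Finset.prod_congr rfl
    intro l _
    have hx := X.x_ne l
    have h1 : X.x l ^ (p * ((s l + (p - 1)) / p)) * X.x l ^ ((s l + (p - 1)) % p) =
        X.x l ^ (s l) * X.x l ^ (p - 1) := by
      rw [← pow_add, Nat.div_add_mod, pow_add]
    have h2 : X.x l ^ (p - 1) * (X.x l)⁻¹ ^ p = (X.x l)⁻¹ := by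
      have h3 : (X.x l)⁻¹ ^ p = (X.x l)⁻¹ ^ (p - 1) * (X.x l)⁻¹ := by
        rw [← pow_succ]
        congr 1
        omega
      rw [h3, ← mul_assoc, ← mul_pow, mul_inv_cancel₀ hx, one_pow, one_mul]
    calc X.x l ^ s l * (X.x l)⁻¹ = X.x l ^ s l * (X.x l ^ (p - 1) * (X.x l)⁻¹ ^ p) := by
          rw [h2]
      _ = (X.x l ^ (s l) * X.x l ^ (p - 1)) * (X.x l)⁻¹ ^ p := by ring
      _ = (X.x l ^ (p * ((s l + (p - 1)) / p)) * X.x l ^ ((s l + (p - 1)) % p)) *
          (X.x l)⁻¹ ^ p := by rw [h1]
      _ = _ := by rw [mul_pow, ← pow_mul, mul_comm p]; ring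
  rw [e, X.tau_pow_mul]
  have h3 := X.tau_mono (fun l => ⟨(s l + (p - 1)) % p, Nat.mod_lt _ hp.pos⟩)
  simp only at h3
  rw [h3, if_neg, mul_zero]
  intro hall
  apply h
  have h4 := hall j0
  have h5 := Nat.div_add_mod (s j0 + (p - 1)) p
  exact ⟨(s j0 + (p - 1)) / p, by omega⟩

theorem PCoord.tau_det_mono (X : PCoord p K n) (hn : 0 < n) (b : Fin n → Fin n → ℕ) :
    X.τ (Matrix.of fun i j => X.d j (∏ l, X.x l ^ b i l)).det = 0 := by
  rw [X.det_mono]
  by_cases h : ∃ j0, ¬ p ∣ ∑ i, b i j0
  · obtain ⟨j0, hj0⟩ := h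
    rw [← zsmul_eq_mul, map_zsmul, X.tau_prod_zero (fun l => ∑ i, b i l) j0 hj0, smul_zero]
  · push Not at h
    have hdet : (((Matrix.of fun i j => (b i j : ℤ)).det : ℤ) : K) = 0 := by
      rw [Int.cast_det, ← Matrix.exists_vecMul_eq_zero_iff]
      refine ⟨fun _ => 1, ?_, ?_⟩
      · intro h0
        have := congrFun h0 ⟨0, hn⟩
        simp at this
      · funext j
        simp only [Matrix.vecMul, dotProduct, Matrix.map_apply, Matrix.of_apply, one_mul,
          Pi.zero_apply, Int.cast_natCast]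
        rw [← Nat.cast_sum, CharP.cast_eq_zero_iff K p]
        exact h j
    rw [hdet, zero_mul, map_zero]


theorem PCoord.tau_det (X : PCoord p K n) (hn : 0 < n) (f : Fin n → K) :
    X.τ (Matrix.of fun i j => X.d j (f i)).det = 0 := by
  classical
  have claim : ∀ (s : Finset (Fin n)) (f : Fin n → K),
      (∀ i, i ∉ s → ∃ b : Fin n → ℕ, f i = ∏ l, X.x l ^ b l) →
      X.τ (Matrix.of fun i j => X.d j (f i)).det = 0 := by
    intro s
    induction s using Finset.induction_on with
    | empty =>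
      intro f hf
      choose b hb using fun i => hf i (Finset.notMem_empty i)
      have e : (Matrix.of fun i j => X.d j (f i)) =
          Matrix.of fun i j => X.d j (∏ l, X.x l ^ b i l) := by
        ext i j
        simp only [Matrix.of_apply]
        rw [hb]
      rw [e]
      exact X.tau_det_mono hn b
    | insert i0 s hi0 ih =>
      intro f hf
      have hM : ∀ g, (Matrix.of fun i j => X.d j (Function.update f i0 g i)) =
          Matrix.updateRow (Matrix.of fun i j => X.d j (f i)) i0 (fun j => X.d j g) := by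
        intro g
        ext i j
        by_cases h : i = i0
        · subst h
          simp
        · simp [h]
      obtain ⟨c, hc⟩ := X.span (f i0)
      let A : K →+ K :=
        { toFun := fun g => X.τ (Matrix.of fun i j => X.d j (Function.update f i0 g i)).det
          map_zero' := by
            simp only [hM]
            have e : (fun j => X.d j (0 : K)) = (0 : K) • (fun j => X.d j (0 : K)) := by
              funext j
              simp
            rw [e, Matrix.det_updateRow_smul, zero_mul, map_zero]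
          map_add' := by
            intro a b
            simp only [hM]
            have e : (fun j => X.d j (a + b)) = (fun j => X.d j a) + (fun j => X.d j b) := by
              funext j
              simp
            rw [e, Matrix.det_updateRow_add, map_add] }
      have hA : ∀ g, A g = X.τ (Matrix.of fun i j => X.d j (Function.update f i0 g i)).det :=
        fun g => rfl
      have hA2 : ∀ a g, A (a ^ p * g) = a * A g := by
        intro a g
        rw [hA, hA, hM, hM]
        have e : (fun j => X.d j (a ^ p * g)) = (a ^ p) • (fun j => X.d j g) := by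
          funext j
          rw [X.d_pow_mul]
          rfl
        rw [e, Matrix.det_updateRow_smul, X.tau_pow_mul]
      have e1 : X.τ (Matrix.of fun i j => X.d j (f i)).det = A (f i0) := by
        rw [hA, Function.update_eq_self]
      rw [e1, hc, map_sum]
      apply Finset.sum_eq_zero
      intro a _
      rw [hA2, hA, ih, mul_zero]
      intro i hi
      by_cases h : i = i0
      · subst h
        exact ⟨fun l => (a l : ℕ), by simp⟩
      · rw [Function.update_of_ne h]
        exact hf i (fun h' => by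
          rcases Finset.mem_insert.mp h' with h'' | h''
          · exact h h''
          · exact hi h'')
  exact claim Finset.univ f (fun i hi => absurd (Finset.mem_univ i) hi)



/-! ### `τ` of logarithmic determinants -/


/-- gradient -/
def PCoord.tau_dlog_grad (X : PCoord p K n) (g : K) : Fin n → K := fun j => X.d j g

theorem PCoord.tau_dlog_grad_add (X : PCoord p K n) (a b : K) :
    X.tau_dlog_grad (a + b) = X.tau_dlog_grad a + X.tau_dlog_grad b := by
  funext j
  exact map_add (X.d j) a b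

theorem PCoord.tau_dlog_grad_mul (X : PCoord p K n) (a b : K) :
    X.tau_dlog_grad (a * b) = a • X.tau_dlog_grad b + b • X.tau_dlog_grad a := by
  funext j
  exact (X.d j).leibniz a b

theorem PCoord.tau_dlog_grad_pow (X : PCoord p K n) (a : K) (m : ℕ) :
    X.tau_dlog_grad (a ^ m) = ((m : K) * a ^ (m - 1)) • X.tau_dlog_grad a := by
  funext j
  have h := (X.d j).leibniz_pow a m
  show X.d j (a ^ m) = ((m : K) * a ^ (m - 1)) * X.d j a
  rw [h]
  simp only [nsmul_eq_mul, smul_eq_mul]
  ring

theorem PCoord.tau_dlog_grad_one (X : PCoord p K n) : X.tau_dlog_grad 1 = 0 := by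
  funext j
  exact (X.d j).map_one_eq_zero

theorem PCoord.tau_dlog_grad_ppow (X : PCoord p K n) (c : K) : X.tau_dlog_grad (c ^ p) = 0 := by
  rw [PCoord.tau_dlog_grad_pow, CharP.cast_eq_zero, zero_mul, zero_smul]

/-- determinant with row `i` free -/
noncomputable def PCoord.tau_dlog_R (X : PCoord p K n) (f : Fin n → K) (i : Fin n) :
    (Fin n → K) →ₗ[K] K :=
  (Matrix.detRowAlternating (R := K) (n := Fin n)).toMultilinearMap.toLinearMap
    (fun l j => X.d j (f l)) i

theorem PCoord.tau_dlog_R_apply (X : PCoord p K n) (f : Fin n → K) (i : Fin n) (g : K) :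
    X.tau_dlog_R f i (X.tau_dlog_grad g) =
      (Matrix.of fun l j => X.d j (Function.update f i g l)).det := by
  show Matrix.det (Function.update (fun l j => X.d j (f l)) i (X.tau_dlog_grad g)) = _
  congr 1
  funext l j
  by_cases h : l = i
  · subst h
    simp [PCoord.tau_dlog_grad]
  · simp [h]

theorem PCoord.tau_dlog_R_row (X : PCoord p K n) (f : Fin n → K) (i l : Fin n) (h : l ≠ i) :
    X.tau_dlog_R f i (X.tau_dlog_grad (f l)) = 0 := by
  show Matrix.det (Function.update (fun l j => X.d j (f l)) i (X.tau_dlog_grad (f l))) = 0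
  apply Matrix.det_zero_of_row_eq h.symm
  rw [Function.update_self, Function.update_of_ne h]
  rfl

theorem PCoord.tau_dlog_R_prod (X : PCoord p K n) (f : Fin n → K) (i : Fin n)
    (s : Finset (Fin n)) (hs : i ∉ s) :
    X.tau_dlog_R f i (X.tau_dlog_grad (∏ l ∈ s, f l)) = 0 := by
  classical
  induction s using Finset.induction_on with
  | empty => rw [Finset.prod_empty, PCoord.tau_dlog_grad_one, map_zero]
  | insert l s hl ih =>
    rw [Finset.prod_insert hl, PCoord.tau_dlog_grad_mul, map_add, map_smul, map_smul,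
      ih (fun h => hs (Finset.mem_insert_of_mem h)),
      PCoord.tau_dlog_R_row X f i l (fun h => hs (h ▸ Finset.mem_insert_self _ _)), smul_zero,
      smul_zero, add_zero]

/-- the defect -/
noncomputable def PCoord.tau_dlog_E (X : PCoord p K n) (f : Fin n → K) : K :=
  X.τ ((∏ i, f i ^ (p - 1)) * (Matrix.of fun i j => X.d j (f i)).det) -
    (Matrix.of fun i j => X.d j (f i)).det

theorem PCoord.tau_dlog_E_update (X : PCoord p K n) (f : Fin n → K) (i : Fin n) (g : K) :
    X.tau_dlog_E (Function.update f i g) =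
      X.τ ((g ^ (p - 1) * (∏ l ∈ Finset.univ \ {i}, f l) ^ (p - 1)) *
        X.tau_dlog_R f i (X.tau_dlog_grad g)) - X.tau_dlog_R f i (X.tau_dlog_grad g) := by
  unfold PCoord.tau_dlog_E
  rw [PCoord.tau_dlog_R_apply, Finset.prod_pow, Finset.prod_update_of_mem (Finset.mem_univ i),
    mul_pow]

theorem tau_dlog_h (u v : K) : ∃ h : K, ∀ D : Derivation ℤ K K,
    D h = (u + v) ^ (p - 1) * D (u + v) - u ^ (p - 1) * D u - v ^ (p - 1) * D v := by
  have hp : p.Prime := Fact.out
  obtain ⟨m, rfl⟩ : ∃ m, p = m + 1 := ⟨p - 1, by have := hp.pos; omega⟩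
  rw [Nat.add_sub_cancel]
  have hq : ∀ k, k < m → ∃ q : ℕ, (m + 1).choose (k + 1) = (m + 1) * q := fun k hk =>
    hp.dvd_choose_self (by omega) (by omega)
  choose! q hq using hq
  have hq1 : ∀ k, k < m → q k * (k + 1) = m.choose k := by
    intro k hk
    have h1 := Nat.add_one_mul_choose_eq m k
    rw [hq k hk] at h1
    have h2 : (m + 1) * (q k * (k + 1)) = (m + 1) * m.choose k := by rw [h1]; ring
    exact Nat.eq_of_mul_eq_mul_left (Nat.succ_pos m) h2
  have hq2 : ∀ k, k < m → q k * (m - k) = m.choose (k + 1) := by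
    intro k hk
    have h1 := Nat.choose_mul_succ_eq m (k + 1)
    rw [hq k hk] at h1
    have h3 : m + 1 - (k + 1) = m - k := by omega
    rw [h3] at h1
    have h2 : (m + 1) * (q k * (m - k)) = (m + 1) * m.choose (k + 1) := by
      calc (m + 1) * (q k * (m - k)) = (m + 1) * q k * (m - k) := by ring
        _ = m.choose (k + 1) * (m + 1) := h1.symm
        _ = _ := by ring
    exact Nat.eq_of_mul_eq_mul_left (Nat.succ_pos m) h2
  refine ⟨∑ k ∈ Finset.range m, (q k : K) * (u ^ (k + 1) * v ^ (m - k)), fun D => ?_⟩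
  have hterm : ∀ k ∈ Finset.range m, D ((q k : K) * (u ^ (k + 1) * v ^ (m - k))) =
      (u ^ k * v ^ (m - k) * (m.choose k : K)) * D u +
      (u ^ (k + 1) * v ^ (m - (k + 1)) * (m.choose (k + 1) : K)) * D v := by
    intro k hk
    have hk' := Finset.mem_range.1 hk
    rw [D.leibniz, D.leibniz, D.leibniz_pow, D.leibniz_pow, D.map_natCast, smul_zero, add_zero,
      ← hq1 k hk', ← hq2 k hk', Nat.add_sub_cancel]
    have h3 : m - k - 1 = m - (k + 1) := by omega
    rw [h3]
    simp only [smul_eq_mul, nsmul_eq_mul]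
    push_cast
    ring
  rw [map_sum, Finset.sum_congr rfl hterm, Finset.sum_add_distrib, ← Finset.sum_mul,
    ← Finset.sum_mul, map_add]
  have e1 : ∑ k ∈ Finset.range m, u ^ k * v ^ (m - k) * (m.choose k : K) = (u + v) ^ m - u ^ m := by
    rw [add_pow, Finset.sum_range_succ]
    simp
  have e2 : ∑ k ∈ Finset.range m, u ^ (k + 1) * v ^ (m - (k + 1)) * (m.choose (k + 1) : K) =
      (u + v) ^ m - v ^ m := by
    rw [add_pow, Finset.sum_range_succ']
    simp
  rw [e1, e2]
  ring

theorem PCoord.tau_dlog_E_add (X : PCoord p K n) (f : Fin n → K) (i : Fin n) (u v : K) :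
    X.tau_dlog_E (Function.update f i (u + v)) =
      X.tau_dlog_E (Function.update f i u) + X.tau_dlog_E (Function.update f i v) := by
  classical
  obtain ⟨h, hh⟩ := tau_dlog_h (p := p) u v
  rw [PCoord.tau_dlog_E_update, PCoord.tau_dlog_E_update, PCoord.tau_dlog_E_update]
  set Q : K := ∏ l ∈ Finset.univ \ {i}, f l with hQ
  set R := X.tau_dlog_R f i with hR
  have hgh : X.tau_dlog_grad h = (u + v) ^ (p - 1) • X.tau_dlog_grad (u + v) -
      u ^ (p - 1) • X.tau_dlog_grad u - v ^ (p - 1) • X.tau_dlog_grad v := by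
    funext j
    exact hh (X.d j)
  have hRh : R (X.tau_dlog_grad h) = (u + v) ^ (p - 1) * R (X.tau_dlog_grad (u + v)) -
      u ^ (p - 1) * R (X.tau_dlog_grad u) - v ^ (p - 1) * R (X.tau_dlog_grad v) := by
    rw [hgh, map_sub, map_sub, map_smul, map_smul, map_smul]
    rfl
  have hRQ : R (X.tau_dlog_grad Q) = 0 := PCoord.tau_dlog_R_prod X f i _ (by simp)
  have h0 : X.τ (Q ^ (p - 1) * R (X.tau_dlog_grad h)) = 0 := by
    have h1 : R (X.tau_dlog_grad (h * Q ^ (p - 1))) = Q ^ (p - 1) * R (X.tau_dlog_grad h) := by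
      rw [PCoord.tau_dlog_grad_mul, PCoord.tau_dlog_grad_pow, map_add, map_smul, map_smul,
        map_smul, hRQ, smul_zero, smul_zero, zero_add, smul_eq_mul]
    rw [← h1, hR, PCoord.tau_dlog_R_apply]
    exact X.tau_det (Fin.pos i) _
  have hadd : R (X.tau_dlog_grad (u + v)) = R (X.tau_dlog_grad u) + R (X.tau_dlog_grad v) := by
    rw [PCoord.tau_dlog_grad_add, map_add]
  have e1 : ((u + v) ^ (p - 1) * Q ^ (p - 1)) * R (X.tau_dlog_grad (u + v)) =
      (u ^ (p - 1) * Q ^ (p - 1)) * R (X.tau_dlog_grad u) +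
      (v ^ (p - 1) * Q ^ (p - 1)) * R (X.tau_dlog_grad v) +
      Q ^ (p - 1) * R (X.tau_dlog_grad h) := by
    rw [hRh]; ring
  rw [e1, map_add, map_add, h0, hadd]
  ring

theorem PCoord.tau_dlog_E_smul (X : PCoord p K n) (f : Fin n → K) (i : Fin n) (c g : K) :
    X.tau_dlog_E (Function.update f i (c ^ p * g)) =
      c ^ p * X.tau_dlog_E (Function.update f i g) := by
  classical
  have hp : p.Prime := Fact.out
  rw [PCoord.tau_dlog_E_update, PCoord.tau_dlog_E_update, PCoord.tau_dlog_grad_mul,
    PCoord.tau_dlog_grad_ppow, smul_zero, add_zero, map_smul, smul_eq_mul]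
  have e1 : ((c ^ p * g) ^ (p - 1) * (∏ l ∈ Finset.univ \ {i}, f l) ^ (p - 1)) *
      (c ^ p * X.tau_dlog_R f i (X.tau_dlog_grad g)) =
      (c ^ p) ^ p * ((g ^ (p - 1) * (∏ l ∈ Finset.univ \ {i}, f l) ^ (p - 1)) *
        X.tau_dlog_R f i (X.tau_dlog_grad g)) := by
    have h2 : (c ^ p) ^ p = (c ^ p) ^ (p - 1) * c ^ p := by
      rw [← pow_succ, Nat.sub_add_cancel hp.one_le]
    rw [mul_pow, h2]
    ring
  rw [e1, X.tau_pow_mul]
  ring

theorem PCoord.tau_dlog_E_zero (X : PCoord p K n) (f : Fin n → K) (i : Fin n) :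
    X.tau_dlog_E (Function.update f i 0) = 0 := by
  have h := PCoord.tau_dlog_E_add X f i 0 0
  rw [add_zero] at h
  simpa using h

theorem PCoord.tau_dlog_x_ne (X : PCoord p K n) (i : Fin n) : X.x i ≠ 0 := by
  intro h
  have h1 := X.d_x i i
  rw [h, map_zero, if_pos rfl] at h1
  exact zero_ne_one h1

theorem PCoord.tau_dlog_d_mono (X : PCoord p K n) (b : Fin n → ℕ) (j : Fin n) :
    X.d j (∏ l, X.x l ^ b l) = (∏ l, X.x l ^ b l) * ((b j : K) * (X.x j)⁻¹) := by
  classical
  have key : ∀ s : Finset (Fin n), X.d j (∏ l ∈ s, X.x l ^ b l) =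
      (∏ l ∈ s, X.x l ^ b l) * ∑ l ∈ s, (b l : K) * (X.x l)⁻¹ * X.d j (X.x l) := by
    intro s
    induction s using Finset.induction_on with
    | empty => simp
    | insert l s hl ih =>
      rw [Finset.prod_insert hl, Finset.sum_insert hl, (X.d j).leibniz, ih, (X.d j).leibniz_pow]
      simp only [smul_eq_mul, nsmul_eq_mul]
      have hx := X.tau_dlog_x_ne l
      have h1 : (b l : K) * (X.x l ^ (b l - 1) * X.d j (X.x l)) =
          X.x l ^ b l * ((b l : K) * (X.x l)⁻¹ * X.d j (X.x l)) := by
        rcases Nat.eq_zero_or_pos (b l) with h | h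
        · simp [h]
        · obtain ⟨m, hm⟩ : ∃ m, b l = m + 1 := ⟨b l - 1, by omega⟩
          rw [hm, Nat.add_sub_cancel, pow_succ]
          field_simp
      rw [h1]
      ring
  rw [key Finset.univ]
  congr 1
  rw [Finset.sum_eq_single j]
  · rw [X.d_x, if_pos rfl, mul_one]
  · intro l _ hl
    rw [X.d_x, if_neg hl, mul_zero]
  · intro h
    exact absurd (Finset.mem_univ j) h

omit [Fact p.Prime] [CharP K p] in
theorem tau_dlog_inv (x : K) (hx : x ≠ 0) (q : ℕ) (hq : 0 < q) :
    x⁻¹ = x⁻¹ ^ q * x ^ (q - 1) := by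
  obtain ⟨m, rfl⟩ : ∃ m, q = m + 1 := ⟨q - 1, by omega⟩
  rw [Nat.add_sub_cancel, pow_succ, inv_pow]
  have : x ^ m ≠ 0 := pow_ne_zero _ hx
  field_simp

theorem PCoord.tau_dlog_mono (X : PCoord p K n) (f : Fin n → K) (b : Fin n → Fin n → ℕ)
    (hf : ∀ i, f i = ∏ l, X.x l ^ b i l) : X.tau_dlog_E f = 0 := by
  classical
  have hp : p.Prime := Fact.out
  unfold PCoord.tau_dlog_E
  have h1 : (Matrix.of fun i j => X.d j (f i)).det =
      (∏ i, f i) * ((∏ j, (X.x j)⁻¹) * (Matrix.of fun i j => (b i j : K)).det) := by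
    rw [← Matrix.det_mul_row, ← Matrix.det_mul_column]
    congr 1
    ext i j
    simp only [Matrix.of_apply]
    rw [hf i, X.tau_dlog_d_mono]
    ring
  have h2 : ((Matrix.of fun i j => (b i j : K)).det) ^ p = (Matrix.of fun i j => (b i j : K)).det := by
    have h3 : (Matrix.of fun i j => (b i j : K)).det =
        (((Matrix.of fun i j => (b i j : ℤ)).det : ℤ) : K) := by
      have h4 := (Int.castRingHom K).map_det (Matrix.of fun i j => (b i j : ℤ))
      have h5 : (((Matrix.of fun i j => (b i j : ℤ)).det : ℤ) : K) = _ := h4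
      rw [h5]
      congr 1
      ext i j
      simp
    rw [h3]
    exact map_intCast (frobenius K p) _
  have h4 : X.τ (∏ j, X.x j ^ (p - 1)) = 1 := by
    have h5 := X.tau_mono (fun _ => ⟨p - 1, by have := hp.pos; omega⟩)
    simpa using h5
  have h6 : (∏ j, (X.x j)⁻¹) = (∏ j, (X.x j)⁻¹) ^ p * ∏ j, X.x j ^ (p - 1) := by
    rw [Finset.prod_pow, Finset.prod_inv_distrib]
    have h7 : (∏ j, X.x j) ≠ 0 := Finset.prod_ne_zero_iff.2 fun j _ => X.tau_dlog_x_ne j
    exact tau_dlog_inv _ h7 _ hp.pos
  set B := (Matrix.of fun i j => (b i j : K)).det with hB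
  set W := ∏ j, (X.x j)⁻¹ with hW
  set F := ∏ i, f i with hF
  have h8 : (∏ i, f i ^ (p - 1)) * (F * (W * B)) =
      (F * (W * B)) ^ p * ∏ j, X.x j ^ (p - 1) := by
    have h9 : F ^ p = F ^ (p - 1) * F := by
      rw [← pow_succ, Nat.sub_add_cancel hp.one_le]
    rw [Finset.prod_pow, ← hF, mul_pow, mul_pow, h2, h9]
    conv_lhs => rw [h6]
    ring
  rw [h1, h8, X.tau_pow_mul, h4, mul_one, sub_self]

theorem PCoord.tau_dlog_all (X : PCoord p K n) (s : Finset (Fin n)) : ∀ f : Fin n → K,
    (∀ i, i ∉ s → ∃ b : Fin n → ℕ, f i = ∏ l, X.x l ^ b l) → X.tau_dlog_E f = 0 := by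
  classical
  induction s using Finset.induction_on with
  | empty =>
    intro f hf
    choose b hb using fun i => hf i (Finset.notMem_empty i)
    exact X.tau_dlog_mono f b hb
  | insert k s hk ih =>
    intro f hf
    obtain ⟨c, hc⟩ := X.span (f k)
    have h1 : ∀ t : Finset (Fin n → Fin p), X.tau_dlog_E (Function.update f k
        (∑ a ∈ t, (c a) ^ p * ∏ i, (X.x i) ^ (a i : ℕ))) = 0 := by
      intro t
      induction t using Finset.induction_on with
      | empty =>
        rw [Finset.sum_empty]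
        exact X.tau_dlog_E_zero f k
      | insert a t ha iht =>
        rw [Finset.sum_insert ha, X.tau_dlog_E_add, iht, add_zero, X.tau_dlog_E_smul]
        rw [ih, mul_zero]
        intro i hi
        by_cases hik : i = k
        · subst hik
          exact ⟨fun l => (a l : ℕ), by rw [Function.update_self]⟩
        · rw [Function.update_of_ne hik]
          exact hf i (fun h => by
            rcases Finset.mem_insert.1 h with h | h
            · exact hik h
            · exact hi h)
    have h2 := h1 Finset.univ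
    rw [← hc, Function.update_eq_self] at h2
    exact h2

theorem PCoord.tau_dlog (X : PCoord p K n) (f : Fin n → K) :
    X.τ ((∏ i, f i ^ (p - 1)) * (Matrix.of fun i j => X.d j (f i)).det) =
      (Matrix.of fun i j => X.d j (f i)).det := by
  have h := X.tau_dlog_all Finset.univ f (fun i hi => absurd (Finset.mem_univ i) hi)
  exact sub_eq_zero.1 h



/-! ### change of coordinates -/


omit [Fact p.Prime] [CharP K p] in
theorem PCoord.x_ne_zero' (Z : PCoord p K n) (l : Fin n) : Z.x l ≠ 0 := by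
  intro h
  have h1 := Z.d_x l l
  rw [h, map_zero, if_pos rfl] at h1
  exact zero_ne_one h1

theorem dlog_pow' {K : Type*} [Field K] (d : Derivation ℤ K K) (x : K) (hx : x ≠ 0) (b : ℕ) :
    d (x ^ b) = x ^ b * ((b : K) * x⁻¹ * d x) := by
  rw [Derivation.leibniz_pow]
  rcases b with _ | k
  · simp
  · rw [Nat.add_sub_cancel, pow_succ, smul_eq_mul, nsmul_eq_mul]
    field_simp

theorem dlog_prod' {K : Type*} [Field K] {n : ℕ} (d : Derivation ℤ K K) (z : Fin n → K)
    (hz : ∀ l, z l ≠ 0) (b : Fin n → ℕ) (s : Finset (Fin n)) :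
    d (∏ l ∈ s, z l ^ b l) = (∏ l ∈ s, z l ^ b l) * ∑ l ∈ s, (b l : K) * (z l)⁻¹ * d (z l) := by
  classical
  induction s using Finset.induction_on with
  | empty => simp
  | insert l s hl ih =>
    rw [Finset.prod_insert hl, Finset.sum_insert hl, Derivation.leibniz, ih,
      dlog_pow' d (z l) (hz l), smul_eq_mul, smul_eq_mul]
    ring

theorem PCoord.tau_change_mono (X Z : PCoord p K n) (a : Fin n → Fin p) :
    X.τ ((∏ i, Z.x i ^ (a i : ℕ)) * (Matrix.of fun i j => X.d j (Z.x i)).det) =
      Z.τ (∏ i, Z.x i ^ (a i : ℕ)) * (Matrix.of fun i j => X.d j (Z.x i)).det := by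
  classical
  rw [Z.tau_mono]
  split_ifs with hall
  · have h1 : (∏ i, Z.x i ^ (a i : ℕ)) = ∏ i, Z.x i ^ (p - 1) := by
      apply Finset.prod_congr rfl
      intro i _
      rw [hall i]
    rw [h1, X.tau_dlog, one_mul]
  · push Not at hall
    obtain ⟨i0, hi0⟩ := hall
    rw [zero_mul]
    set M : Matrix (Fin n) (Fin n) K := Matrix.of fun i j => X.d j (Z.x i) with hM
    have hn : 0 < n := lt_of_le_of_lt (Nat.zero_le _) i0.2
    set b : Fin n → ℕ := Function.update (fun i => (a i : ℕ)) i0 ((a i0 : ℕ) + 1) with hb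
    set h : K := ∏ l, Z.x l ^ b l with hh
    have hhm : h = Z.x i0 * ∏ i, Z.x i ^ (a i : ℕ) := by
      rw [hh, ← Finset.mul_prod_erase Finset.univ _ (Finset.mem_univ i0),
        ← Finset.mul_prod_erase Finset.univ (fun i => Z.x i ^ (a i : ℕ)) (Finset.mem_univ i0)]
      have h2 : ∏ l ∈ Finset.univ.erase i0, Z.x l ^ b l
          = ∏ l ∈ Finset.univ.erase i0, Z.x l ^ (a l : ℕ) := by
        apply Finset.prod_congr rfl
        intro l hl
        rw [hb, Function.update_of_ne (Finset.ne_of_mem_erase hl)]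
      rw [h2, hb, Function.update_self, pow_succ]
      ring
    have hdet : (Matrix.of fun i j => X.d j (Function.update Z.x i0 h i)).det
        = (((a i0 : ℕ) + 1 : ℕ) : K) * ((∏ i, Z.x i ^ (a i : ℕ)) * M.det) := by
      have h3 : (Matrix.of fun i j => X.d j (Function.update Z.x i0 h i))
          = M.updateRow i0 (∑ l, (h * ((b l : K) * (Z.x l)⁻¹)) • M l) := by
        ext i j
        by_cases hi : i = i0
        · subst hi
          rw [Matrix.updateRow_self, Matrix.of_apply, Function.update_self, hh,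
            dlog_prod' (X.d j) Z.x Z.x_ne_zero' b, Finset.sum_apply, Finset.mul_sum]
          apply Finset.sum_congr rfl
          intro l _
          rw [Pi.smul_apply, smul_eq_mul, hM, Matrix.of_apply]
          ring
        · rw [Matrix.updateRow_ne hi, Matrix.of_apply, Function.update_of_ne hi, hM,
            Matrix.of_apply]
      rw [h3, Matrix.det_updateRow_sum, smul_eq_mul, hb, Function.update_self, hhm]
      have := Z.x_ne_zero' i0
      field_simp
    have h4 := X.tau_det hn (Function.update Z.x i0 h)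
    rw [hdet, ← nsmul_eq_mul, map_nsmul, nsmul_eq_mul] at h4
    rcases mul_eq_zero.mp h4 with h5 | h5
    · exfalso
      rw [CharP.cast_eq_zero_iff K p] at h5
      have h6 := Nat.le_of_dvd (Nat.succ_pos _) h5
      have h7 := (a i0).2
      omega
    · exact h5

theorem PCoord.tau_change (X Z : PCoord p K n) (g : K) :
    X.τ (g * (Matrix.of fun i j => X.d j (Z.x i)).det) =
      Z.τ g * (Matrix.of fun i j => X.d j (Z.x i)).det := by
  obtain ⟨c, hc⟩ := Z.span g
  rw [hc, Finset.sum_mul, map_sum, map_sum, Finset.sum_mul]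
  apply Finset.sum_congr rfl
  intro a _
  rw [mul_assoc, X.tau_pow_mul, Z.tau_pow_mul, X.tau_change_mono Z a, mul_assoc]




theorem ct_d_pow (D : Derivation ℤ K K) (c : K) : D (c ^ p) = 0 := by
  rw [Derivation.leibniz_pow]
  have : (p : K) = 0 := CharP.cast_eq_zero K p
  rw [← Nat.cast_smul_eq_nsmul K, this, zero_smul]

theorem ct_mono (x : Fin n → K) (d : Fin n → Derivation ℤ K K)
    (hd : ∀ i j, d j (x i) = if i = j then 1 else 0) (a : Fin n → Fin p) (i : Fin n) :
    x i * d i (∏ l, (x l) ^ (a l : ℕ)) = ((a i : ℕ) : K) * ∏ l, (x l) ^ (a l : ℕ) := by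
  have h0 : ∀ S : Finset (Fin n), i ∉ S → d i (∏ l ∈ S, (x l) ^ (a l : ℕ)) = 0 := by
    intro S
    induction S using Finset.induction_on with
    | empty => intro _; simp
    | insert l S hl ih =>
      intro hi
      rw [Finset.mem_insert, not_or] at hi
      rw [Finset.prod_insert hl, Derivation.leibniz, ih hi.2, Derivation.leibniz_pow, hd,
        if_neg (Ne.symm hi.1)]
      simp
  rw [← Finset.mul_prod_erase Finset.univ _ (Finset.mem_univ i), Derivation.leibniz,
    h0 _ (Finset.notMem_erase _ _), Derivation.leibniz_pow, hd, if_pos rfl]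
  rcases Nat.eq_zero_or_pos (a i : ℕ) with h | h
  · rw [h]; simp
  · obtain ⟨k, hk⟩ : ∃ k, (a i : ℕ) = k + 1 := ⟨(a i : ℕ) - 1, by omega⟩
    rw [hk]
    simp only [smul_zero, zero_add, Nat.add_sub_cancel, smul_eq_mul, mul_one, nsmul_eq_mul]
    ring

theorem ct_indep (x : Fin n → K) (d : Fin n → Derivation ℤ K K)
    (hd : ∀ i j, d j (x i) = if i = j then 1 else 0) (c : (Fin n → Fin p) → K)
    (h : ∑ a, (c a) ^ p * ∏ i, (x i) ^ (a i : ℕ) = 0) (b : Fin n → Fin p) : c b = 0 := by
  classical
  have key : ∀ S : Finset (Fin n × Fin p),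
      ∑ a : Fin n → Fin p, (∏ q ∈ S, (((a q.1 : ℕ) : ℤ) - ((q.2 : ℕ) : ℤ))) •
        ((c a) ^ p * ∏ i, (x i) ^ (a i : ℕ)) = 0 := by
    intro S
    induction S using Finset.induction_on with
    | empty => simpa using h
    | insert q S hq ih =>
      have h1 : x q.1 * d q.1 (∑ a : Fin n → Fin p, (∏ q ∈ S, (((a q.1 : ℕ) : ℤ) - ((q.2 : ℕ) : ℤ))) •
        ((c a) ^ p * ∏ i, (x i) ^ (a i : ℕ))) - ((q.2 : ℕ) : K) *
          (∑ a : Fin n → Fin p, (∏ q ∈ S, (((a q.1 : ℕ) : ℤ) - ((q.2 : ℕ) : ℤ))) •
        ((c a) ^ p * ∏ i, (x i) ^ (a i : ℕ))) = 0 := by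
        rw [ih]; simp
      rw [← h1, map_sum, Finset.mul_sum, Finset.mul_sum, ← Finset.sum_sub_distrib]
      refine Finset.sum_congr rfl fun a _ => ?_
      rw [map_zsmul, Derivation.leibniz, ct_d_pow (p := p), smul_zero, add_zero, smul_eq_mul,
        Finset.prod_insert hq]
      have h2 := ct_mono x d hd a q.1
      generalize d q.1 (∏ l, (x l) ^ (a l : ℕ)) = A at h2 ⊢
      generalize (∏ l, (x l) ^ (a l : ℕ)) = B at h2 ⊢
      generalize (∏ q ∈ S, (((a q.1 : ℕ) : ℤ) - ((q.2 : ℕ) : ℤ))) = w
      simp only [zsmul_eq_mul, Int.cast_mul, Int.cast_sub, Int.cast_natCast]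
      linear_combination (-(w : K) * c a ^ p) * h2
  have h1 := key (Finset.univ.filter fun q => q.2 ≠ b q.1)
  rw [Finset.sum_eq_single b] at h1
  · have hx : ∀ i, x i ≠ 0 := by
      intro i h0
      have := hd i i
      rw [h0, map_zero, if_pos rfl] at this
      exact zero_ne_one this
    have hw : ((∏ q ∈ Finset.univ.filter (fun q : Fin n × Fin p => q.2 ≠ b q.1),
        (((b q.1 : ℕ) : ℤ) - ((q.2 : ℕ) : ℤ)) : ℤ) : K) ≠ 0 := by
      rw [Int.cast_prod]
      refine Finset.prod_ne_zero_iff.2 fun q hq => ?_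
      rw [Finset.mem_filter] at hq
      intro h3
      push_cast at h3
      have h4 : (((b q.1 : ℕ) : ℕ) : K) = ((q.2 : ℕ) : K) := sub_eq_zero.1 h3
      have h5 := (CharP.natCast_eq_natCast K p).1 h4
      have h6 := h5.eq_of_lt_of_lt (b q.1).2 q.2.2
      exact hq.2 (Fin.ext h6.symm)
    rw [zsmul_eq_mul] at h1
    have h2 := (mul_eq_zero.1 h1).resolve_left hw
    have h3 := (mul_eq_zero.1 h2).resolve_right
      (Finset.prod_ne_zero_iff.2 fun i _ => pow_ne_zero _ (hx i))
    exact eq_zero_of_pow_eq_zero h3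
  · intro a _ hab
    obtain ⟨i, hi⟩ := Function.ne_iff.1 hab
    rw [Finset.prod_eq_zero (i := (i, a i)), zero_smul]
    · rw [Finset.mem_filter]; exact ⟨Finset.mem_univ _, hi⟩
    · simp
  · intro h; exact absurd (Finset.mem_univ _) h

theorem ct_span (X : PCoord p K n) (z : Fin n → K) (d : Fin n → Derivation ℤ K K)
    (hd : ∀ i j, d j (z i) = if i = j then 1 else 0) (g : K) :
    ∃ c : (Fin n → Fin p) → K, g = ∑ a, (c a) ^ p * ∏ i, (z i) ^ (a i : ℕ) := by
  classical
  let L : Subfield K := (frobenius K p).fieldRange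
  have hL : ∀ y : L, ∃ c : K, c ^ p = (y : K) := fun y => by
    obtain ⟨c, hc⟩ := y.2
    exact ⟨c, hc⟩
  have hL' : ∀ c : K, c ^ p ∈ L := fun c => ⟨c, rfl⟩
  let mX : (Fin n → Fin p) → K := fun a => ∏ i, (X.x i) ^ (a i : ℕ)
  let mZ : (Fin n → Fin p) → K := fun a => ∏ i, (z i) ^ (a i : ℕ)
  have hX : Submodule.span L (Set.range mX) = ⊤ := by
    rw [eq_top_iff]
    intro y _
    obtain ⟨c, hc⟩ := X.span y
    rw [Submodule.mem_span_range_iff_exists_fun]
    exact ⟨fun a => ⟨(c a) ^ p, hL' _⟩, hc.symm⟩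
  haveI : Module.Finite L K := ⟨⟨Finset.univ.image mX, by
    rw [Finset.coe_image, Finset.coe_univ, Set.image_univ, hX]⟩⟩
  have hle : Module.finrank L K ≤ Fintype.card (Fin n → Fin p) := by
    have h := finrank_range_le_card (R := L) mX
    rw [Set.finrank, hX, finrank_top] at h
    exact h
  have hZ : LinearIndependent L mZ := by
    rw [Fintype.linearIndependent_iff]
    intro c hc a
    choose c' hc' using fun a => hL (c a)
    have h1 := ct_indep z d hd c' (by
      rw [← hc]
      refine Finset.sum_congr rfl fun a _ => ?_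
      rw [hc']; rfl) a
    refine Subtype.ext ?_
    rw [← hc', h1, zero_pow (Fact.out : p.Prime).ne_zero]; rfl
  have heq : Fintype.card (Fin n → Fin p) = Module.finrank L K :=
    le_antisymm hZ.fintype_card_le_finrank hle
  have htop := hZ.span_eq_top_of_card_eq_finrank' heq
  have hg : g ∈ Submodule.span L (Set.range mZ) := by rw [htop]; trivial
  rw [Submodule.mem_span_range_iff_exists_fun] at hg
  obtain ⟨c, hc⟩ := hg
  choose c' hc' using fun a => hL (c a)
  refine ⟨c', ?_⟩
  rw [← hc]
  refine Finset.sum_congr rfl fun a _ => ?_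
  rw [hc']; rfl

theorem PCoord.exists_change (X : PCoord p K n) (z : Fin n → K)
    (hz : (Matrix.of fun i j => X.d j (z i)).det ≠ 0) :
    ∃ Z : PCoord p K n, Z.x = z ∧ ∀ (i : Fin n) (u : K),
      Z.d i u * (Matrix.of fun i j => X.d j (z i)).det =
        (Matrix.of fun l j => X.d j (Function.update z i u l)).det := by
  classical
  set M : Matrix (Fin n) (Fin n) K := Matrix.of fun i j => X.d j (z i) with hM
  let D : Fin n → Derivation ℤ K K := fun i => ∑ j, (M⁻¹ j i) • X.d j
  have hD : ∀ i u, D i u = ∑ j, M⁻¹ j i * X.d j u := by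
    intro i u
    show (∑ j, (M⁻¹ j i) • X.d j) u = _
    rw [← Derivation.coeFnAddMonoidHom_apply, map_sum, Finset.sum_apply]
    rfl
  have hdz : ∀ i j, D j (z i) = if i = j then 1 else 0 := by
    intro i j
    rw [hD]
    have h1 : (M * M⁻¹) i j = (1 : Matrix (Fin n) (Fin n) K) i j := by
      rw [Matrix.mul_nonsing_inv M (isUnit_iff_ne_zero.2 hz)]
    rw [Matrix.mul_apply, Matrix.one_apply] at h1
    rw [← h1]
    refine Finset.sum_congr rfl fun l _ => ?_
    rw [mul_comm]; rfl
  refine ⟨⟨z, D, hdz, ct_span X z D hdz⟩, rfl, fun i u => ?_⟩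
  show D i u * M.det = _
  have h1 : (Matrix.of fun l j => X.d j (Function.update z i u l)) =
      M.updateRow i (fun j => X.d j u) := by
    ext l j
    by_cases hl : l = i
    · subst hl; simp
    · simp [Matrix.updateRow_ne hl, Function.update_of_ne hl, hM]
  rw [h1, ← Matrix.cramer_transpose_apply, Matrix.cramer_eq_adjugate_mulVec, hD, Finset.sum_mul]
  simp only [Matrix.mulVec, dotProduct]
  refine Finset.sum_congr rfl fun j _ => ?_
  rw [← Matrix.adjugate_transpose, Matrix.transpose_apply, Matrix.inv_def, Matrix.smul_apply,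
    Ring.inverse_eq_inv', smul_eq_mul]
  field_simp


/-! ### discrete valuation rings -/


theorem PCoord.x_ne139 (X : PCoord p K n) (i : Fin n) : X.x i ≠ 0 := by
  intro h
  have h1 := X.d_x i i
  rw [h, map_zero, if_pos rfl] at h1
  exact zero_ne_one h1

theorem PCoord.d_pow139 (X : PCoord p K n) (j : Fin n) (v : K) : X.d j (v ^ p) = 0 := by
  rw [Derivation.leibniz_pow]
  have h1 : (p : K) = 0 := CharP.cast_eq_zero K p
  rw [nsmul_eq_mul, h1, zero_mul]

theorem PCoord.exists_ne139 (X : PCoord p K n) (R : Type*) [CommRing R] [IsDomain R]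
    [Algebra R K] [IsFractionRing R K] :
    ∃ y : Fin n → R, (Matrix.of fun i j => X.d j (algebraMap R K (y i))).det ≠ 0 := by
  have h1 : ∀ i, ∃ u v : R, algebraMap R K v ≠ 0 ∧ X.x i = algebraMap R K u / algebraMap R K v := by
    intro i
    obtain ⟨u, v, hv, huv⟩ := IsFractionRing.div_surjective (A := R) (X.x i)
    refine ⟨u, v, ?_, huv.symm⟩
    intro h
    have h2 : v = 0 := (IsFractionRing.injective R K) (by rw [h, map_zero])
    exact nonZeroDivisors.ne_zero hv h2
  choose u v hv huv using h1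
  have hp : 1 ≤ p := (Fact.out : p.Prime).one_le
  refine ⟨fun i => u i * v i ^ (p - 1), ?_⟩
  have h2 : ∀ i, algebraMap R K (u i * v i ^ (p - 1)) = algebraMap R K (v i) ^ p * X.x i := by
    intro i
    rw [map_mul, map_pow, huv i]
    have h3 : algebraMap R K (v i) ^ p = algebraMap R K (v i) ^ (p - 1) * algebraMap R K (v i) := by
      rw [← pow_succ, Nat.sub_add_cancel hp]
    rw [h3]
    field_simp [hv i]
  have h4 : (Matrix.of fun i j => X.d j (algebraMap R K (u i * v i ^ (p - 1)))) =
      Matrix.diagonal fun i => algebraMap R K (v i) ^ p := by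
    ext i j
    rw [Matrix.of_apply, h2, Derivation.leibniz, X.d_pow139, X.d_x, Matrix.diagonal_apply]
    split_ifs <;> simp
  rw [h4, Matrix.det_diagonal]
  exact Finset.prod_ne_zero_iff.2 fun i _ => pow_ne_zero _ (hv i)

theorem PCoord.exists_min (X : PCoord p K n) (R : Type*) [CommRing R] [IsDomain R]
    [IsDiscreteValuationRing R] [Algebra R K] [IsFractionRing R K]
    (h : ∀ y : Fin n → R, ∃ r : R, (∏ i, X.x i) *
      (Matrix.of fun i j => X.d j (algebraMap R K (y i))).det = algebraMap R K r) :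
    ∃ z : Fin n → R, (Matrix.of fun i j => X.d j (algebraMap R K (z i))).det ≠ 0 ∧
      ∀ y : Fin n → R, ∃ r : R, (Matrix.of fun i j => X.d j (algebraMap R K (y i))).det =
        algebraMap R K r * (Matrix.of fun i j => X.d j (algebraMap R K (z i))).det := by
  choose r hr using h
  obtain ⟨M, hM⟩ : ∃ M : (Fin n → R) → K, ∀ y,
      (Matrix.of fun i j => X.d j (algebraMap R K (y i))).det = M y := ⟨_, fun _ => rfl⟩
  simp only [hM] at hr ⊢
  obtain ⟨y0, hy0⟩ := X.exists_ne139 R
  rw [hM] at hy0
  have hP : (∏ i, X.x i) ≠ 0 := Finset.prod_ne_zero_iff.2 fun i _ => X.x_ne139 i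
  obtain ⟨m, hm, hmin⟩ := (wellFounded_lt (α := ℕ∞)).has_min
    ((fun y => IsDiscreteValuationRing.addVal R (r y)) '' {y | M y ≠ 0}) ⟨_, y0, hy0, rfl⟩
  obtain ⟨z, hz, rfl⟩ := hm
  refine ⟨z, hz, fun y => ?_⟩
  by_cases hy : M y = 0
  · exact ⟨0, by rw [hy, map_zero, zero_mul]⟩
  · have h1 : IsDiscreteValuationRing.addVal R (r z) ≤ IsDiscreteValuationRing.addVal R (r y) :=
      not_lt.1 (hmin _ ⟨y, hy, rfl⟩)
    obtain ⟨c, hc⟩ := IsDiscreteValuationRing.addVal_le_iff_dvd.1 h1
    refine ⟨c, ?_⟩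
    have h2 := hr y
    rw [hc, map_mul, ← hr z] at h2
    refine mul_left_cancel₀ hP ?_
    rw [h2]
    ring

theorem PCoord.main (X : PCoord p K n) : ∃ σ : K →+ K, (∀ a b, σ (a ^ p * b) = a * σ b) ∧
    σ 1 = 1 ∧ ∀ (R : Type v) [CommRing R] [IsDomain R] [IsDiscreteValuationRing R] [Algebra R K]
      [IsFractionRing R K],
      (∀ y : Fin n → R, ∃ r : R, (∏ i, X.x i) *
        (Matrix.of fun i j => X.d j (algebraMap R K (y i))).det = algebraMap R K r) →
      ∀ g : R, ∃ r : R, σ (algebraMap R K g) = algebraMap R K r := by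
  have hp : 1 ≤ p := (Fact.out : p.Prime).one_le
  obtain ⟨Q, hQ⟩ : ∃ Q, Q = ∏ i, X.x i ^ (p - 1) := ⟨_, rfl⟩
  refine ⟨X.τ.comp (AddMonoidHom.mulRight Q), ?_, ?_, ?_⟩
  · intro a b
    show X.τ (a ^ p * b * Q) = a * X.τ (b * Q)
    rw [mul_assoc, X.tau_pow_mul]
  · show X.τ (1 * Q) = 1
    have h1 := X.tau_mono fun _ => ⟨p - 1, by omega⟩
    rw [if_pos fun _ => rfl] at h1
    rw [one_mul, hQ]
    exact h1
  · intro R _ _ _ _ _ h g
    show ∃ r : R, X.τ (algebraMap R K g * Q) = algebraMap R K r
    obtain ⟨z, hz, hmin⟩ := X.exists_min R h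
    obtain ⟨r0, hr0⟩ := h z
    obtain ⟨Z, hZx, hZd⟩ := X.exists_change (fun i => algebraMap R K (z i)) hz
    obtain ⟨D, hD⟩ : ∃ D, D = (Matrix.of fun i j => X.d j (algebraMap R K (z i))).det := ⟨_, rfl⟩
    rw [← hD] at hz hr0
    have hd : ∀ i, ∀ u ∈ (algebraMap R K).range, Z.d i u ∈ (algebraMap R K).range := by
      rintro i u ⟨w, rfl⟩
      have h1 := hZd i (algebraMap R K w)
      rw [← hD] at h1
      obtain ⟨r', hr'⟩ := hmin (Function.update z i w)
      rw [← hD] at hr'
      have h2 : (fun l j => X.d j (Function.update (fun i => algebraMap R K (z i)) i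
          (algebraMap R K w) l)) = fun l j => X.d j (algebraMap R K (Function.update z i w l)) := by
        funext l j
        congr 1
        by_cases hl : l = i
        · subst hl
          rw [Function.update_self, Function.update_self]
        · rw [Function.update_of_ne hl, Function.update_of_ne hl]
      rw [h2, hr'] at h1
      exact ⟨r', (mul_right_cancel₀ hz h1).symm⟩
    have hR : ∀ c : K, c ^ p ∈ (algebraMap R K).range → c ∈ (algebraMap R K).range := by
      rintro c ⟨w, hw⟩
      have h1 : IsIntegral R (c ^ p) := by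
        rw [← hw]
        exact isIntegral_algebraMap
      have h2 : IsIntegral R c := IsIntegral.of_pow hp h1
      obtain ⟨y, hy⟩ := IsIntegrallyClosed.isIntegral_iff.1 h2
      exact ⟨y, hy⟩
    have h3 : Z.τ (algebraMap R K g * (algebraMap R K r0) ^ (p - 1)) ∈ (algebraMap R K).range := by
      refine Z.tau_mem _ hR hd _ ⟨g * r0 ^ (p - 1), ?_⟩
      rw [map_mul, map_pow]
    obtain ⟨r, hr⟩ := h3
    refine ⟨r, ?_⟩
    have h4 := X.tau_change Z (algebraMap R K g * (algebraMap R K r0) ^ (p - 1))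
    rw [hZx, ← hD, ← hr] at h4
    have h5 : algebraMap R K g * (algebraMap R K r0) ^ (p - 1) * D =
        D ^ p * (algebraMap R K g * Q) := by
      have h6 : D ^ p = D ^ (p - 1) * D := by rw [← pow_succ, Nat.sub_add_cancel hp]
      rw [← hr0, hQ, Finset.prod_pow, mul_pow, h6]
      ring
    rw [h5, X.tau_pow_mul, mul_comm] at h4
    exact mul_right_cancel₀ hz h4


end Basic

end Pool.Agent.Helper271.CT
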