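import Mathlib
import Pool.Agent.Helper271.CT.Defs
import Pool.Agent.Helper271.CT.Coord

universe u

open ClusterLift

namespace Pool.Agent.Helper271.CT


theorem PCoord.det_of_topForm_alg {p : ℕ} [Fact p.Prime] {k K : Type*} [Field k] [CharP k p]
    [PerfectRing k p] [Field K] [CharP K p] [Algebra k K] (d : Derivation ℤ K K) (c : k) :
    d (algebraMap k K c) = 0 := by
  obtain ⟨b, hb⟩ : ∃ b : k, b ^ p = c := ⟨(frobeniusEquiv k p).symm c, by
    rw [← frobenius_def, frobenius_apply_frobeniusEquiv_symm]⟩
  rw [← hb, map_pow, Derivation.leibniz_pow, ← Nat.cast_smul_eq_nsmul K, CharP.cast_eq_zero,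
    zero_smul]

/-- the derivation as a `k`-derivation -/
noncomputable def PCoord.det_of_topForm_D (p : ℕ) [Fact p.Prime] (k : Type*) {K : Type*} [Field k]
    [CharP k p] [PerfectRing k p] [Field K] [CharP K p] [Algebra k K] (d : Derivation ℤ K K) :
    Derivation k K K :=
  Derivation.mk'
    { toFun := fun g => d g
      map_add' := fun a b => map_add d a b
      map_smul' := fun c g => by
        rw [Algebra.smul_def, Derivation.leibniz, PCoord.det_of_topForm_alg (p := p) d c,
          RingHom.id_apply, Algebra.smul_def c (d g)]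
        simp }
    (fun a b => by
      show d (a * b) = _
      rw [Derivation.leibniz]
      rfl)

theorem PCoord.det_of_topForm_D_apply (p : ℕ) [Fact p.Prime] (k : Type*) {K : Type*} [Field k]
    [CharP k p] [PerfectRing k p] [Field K] [CharP K p] [Algebra k K] (d : Derivation ℤ K K)
    (g : K) : PCoord.det_of_topForm_D p k d g = d g := rfl

theorem PCoord.det_of_topForm {p : ℕ} [Fact p.Prime] {k K : Type u} [Field k] [CharP k p]
    [PerfectRing k p] [Field K] [CharP K p] [Algebra k K] {n : ℕ} (X : PCoord p K n)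
    (z : Fin n → K) (w : K) (h : IsTopFormField k X.x z w) :
    (∏ i, X.x i) * (Matrix.of fun i j => X.d j (z i)).det = w := by
  replace h : exteriorPower.ιMulti K n (fun i => KaehlerDifferential.D k K (z i)) =
      w • exteriorPower.ιMulti K n (fun i => (X.x i)⁻¹ • KaehlerDifferential.D k K (X.x i)) := by
    apply Subtype.ext
    rw [Submodule.coe_smul, exteriorPower.ιMulti_apply_coe, exteriorPower.ιMulti_apply_coe,
      ExteriorAlgebra.ιMulti_apply, ExteriorAlgebra.ιMulti_apply]
    exact h
  obtain ⟨φ, hφ⟩ : ∃ φ : Ω[K⁄k] →ₗ[K] (Fin n → K), ∀ g j,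
      φ (KaehlerDifferential.D k K g) j = X.d j g := by
    refine ⟨LinearMap.pi (fun j => (PCoord.det_of_topForm_D p k (X.d j)).liftKaehlerDifferential), ?_⟩
    intro g j
    rw [LinearMap.pi_apply, Derivation.liftKaehlerDifferential_comp_D,
      PCoord.det_of_topForm_D_apply]
  have h1 := congrArg (exteriorPower.alternatingMapLinearEquiv
    ((Matrix.detRowAlternating (n := Fin n) (R := K)).compLinearMap φ)) h
  rw [map_smul, exteriorPower.alternatingMapLinearEquiv_apply_ιMulti,
    exteriorPower.alternatingMapLinearEquiv_apply_ιMulti] at h1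
  have h2 : ((Matrix.detRowAlternating (n := Fin n) (R := K)).compLinearMap φ)
      (fun i => KaehlerDifferential.D k K (z i)) = (Matrix.of fun i j => X.d j (z i)).det := by
    rw [AlternatingMap.compLinearMap_apply]
    show Matrix.det (fun i => φ (KaehlerDifferential.D k K (z i))) = _
    congr 1
    ext i j
    exact hφ (z i) j
  have h3 : ((Matrix.detRowAlternating (n := Fin n) (R := K)).compLinearMap φ)
      (fun i => (X.x i)⁻¹ • KaehlerDifferential.D k K (X.x i)) = ∏ i, (X.x i)⁻¹ := by
    rw [AlternatingMap.compLinearMap_apply, ← Matrix.det_diagonal]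
    show Matrix.det (fun i => φ ((X.x i)⁻¹ • KaehlerDifferential.D k K (X.x i))) = _
    congr 1
    ext i j
    show φ ((X.x i)⁻¹ • KaehlerDifferential.D k K (X.x i)) j = _
    rw [map_smul, Pi.smul_apply, hφ, X.d_x, Matrix.diagonal_apply]
    split_ifs <;> simp
  rw [h2, h3] at h1
  have hx : ∀ i, X.x i ≠ 0 := by
    intro i h0
    have := X.d_x i i
    rw [h0, map_zero, if_pos rfl] at this
    exact zero_ne_one this
  rw [h1, smul_eq_mul, mul_left_comm, ← Finset.prod_mul_distrib]
  rw [Finset.prod_congr rfl (fun i _ => mul_inv_cancel₀ (hx i)), Finset.prod_const_one, mul_one]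



theorem PCoord.exists_der {k K : Type*} [Field k] [Field K] [Algebra k K] {n : ℕ}
    (x : Fin n → K) (hx : AlgebraicIndependent k x)
    (hx' : IntermediateField.adjoin k (Set.range x) = ⊤) (j : Fin n) :
    ∃ D : Derivation ℤ K K, ∀ i, D (x i) = if i = j then 1 else 0 := by
  letI : Algebra (MvPolynomial (Fin n) k) K :=
    (MvPolynomial.aeval x : MvPolynomial (Fin n) k →ₐ[k] K).toRingHom.toAlgebra
  have hmap : ∀ P : MvPolynomial (Fin n) k,
      algebraMap (MvPolynomial (Fin n) k) K P = MvPolynomial.aeval x P := fun P => rfl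
  haveI hfaith : FaithfulSMul (MvPolynomial (Fin n) k) K :=
    (faithfulSMul_iff_algebraMap_injective _ _).2 hx
  haveI hfrac : IsFractionRing (MvPolynomial (Fin n) k) K := by
    refine IsFractionRing.of_field (MvPolynomial (Fin n) k) K (fun z => ?_)
    have hz : z ∈ IntermediateField.adjoin k (Set.range x) := by rw [hx']; trivial
    exact (IntermediateField.mem_adjoin_range_iff k x z).1 hz
  let φ : MvPolynomial (Fin n) k →+* TrivSqZeroExt K K :=
    MvPolynomial.eval₂Hom ((TrivSqZeroExt.inlHom K K).comp (algebraMap k K))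
      (fun i => TrivSqZeroExt.inl (x i) + TrivSqZeroExt.inr (if i = j then 1 else 0))
  have hfst0 : ((TrivSqZeroExt.fstHom K K K : TrivSqZeroExt K K →ₐ[K] K) :
      TrivSqZeroExt K K →+* K).comp φ = algebraMap (MvPolynomial (Fin n) k) K := by
    refine MvPolynomial.ringHom_ext (fun a => ?_) (fun i => ?_)
    · rw [hmap]
      simp [φ]
    · rw [hmap]
      simp [φ]
      split_ifs <;> simp
  have hfst : ∀ P, (φ P).fst = algebraMap (MvPolynomial (Fin n) k) K P := by
    intro P
    rw [← hfst0]
    rfl
  have hunit : ∀ y : nonZeroDivisors (MvPolynomial (Fin n) k), IsUnit (φ y) := by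
    intro y
    rw [TrivSqZeroExt.isUnit_iff_isUnit_fst, hfst]
    exact IsLocalization.map_units K y
  let ψ : K →+* TrivSqZeroExt K K := IsLocalization.lift (M := nonZeroDivisors (MvPolynomial (Fin n) k)) (g := φ) hunit
  have hψ : ∀ P, ψ (algebraMap (MvPolynomial (Fin n) k) K P) = φ P :=
    fun P => IsLocalization.lift_eq hunit P
  have hψfst0 : ((TrivSqZeroExt.fstHom K K K : TrivSqZeroExt K K →ₐ[K] K) :
      TrivSqZeroExt K K →+* K).comp ψ = RingHom.id K := by
    refine IsLocalization.ringHom_ext (nonZeroDivisors (MvPolynomial (Fin n) k)) ?_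
    refine RingHom.ext fun P => ?_
    change (ψ (algebraMap _ K P)).fst = algebraMap _ K P
    rw [hψ, hfst]
  have hψfst : ∀ z, (ψ z).fst = z := by
    intro z
    have := congrArg (fun f : K →+* K => f z) hψfst0
    exact this
  let L : K →ₗ[ℤ] K := ((TrivSqZeroExt.sndHom K K).toAddMonoidHom.comp
    (ψ : K →+ TrivSqZeroExt K K)).toIntLinearMap
  have hL : ∀ z, L z = (ψ z).snd := fun z => rfl
  refine ⟨Derivation.mk' L (fun a b => ?_), fun i => ?_⟩
  · rw [hL, hL, hL, map_mul, TrivSqZeroExt.snd_mul, hψfst, hψfst, op_smul_eq_smul]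
  · change L (x i) = _
    rw [hL]
    have : x i = algebraMap (MvPolynomial (Fin n) k) K (MvPolynomial.X i) := by
      rw [hmap, MvPolynomial.aeval_X]
    rw [this, hψ]
    simp [φ]
    split_ifs <;> simp

theorem PCoord.exists_span {p : ℕ} [Fact p.Prime] {k K : Type*} [Field k] [CharP k p]
    [PerfectRing k p] [Field K] [CharP K p] [Algebra k K] {n : ℕ} (x : Fin n → K)
    (hx' : IntermediateField.adjoin k (Set.range x) = ⊤) (g : K) :
    ∃ c : (Fin n → Fin p) → K, g = ∑ a, (c a) ^ p * ∏ i, (x i) ^ (a i : ℕ) := by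
  have hp : p.Prime := Fact.out
  have hp0 : p ≠ 0 := hp.ne_zero
  haveI : NeZero p := ⟨hp0⟩
  let R : K → Prop := fun g => ∃ c : (Fin n → Fin p) → K,
    g = ∑ a, (c a) ^ p * ∏ i, (x i) ^ (a i : ℕ)
  have R_add : ∀ g h, R g → R h → R (g + h) := by
    rintro g h ⟨c, rfl⟩ ⟨c', rfl⟩
    refine ⟨fun a => c a + c' a, ?_⟩
    rw [← Finset.sum_add_distrib]
    refine Finset.sum_congr rfl fun a _ => ?_
    rw [add_pow_char]
    ring
  have R_zero : R 0 := ⟨fun _ => 0, by simp [hp0]⟩
  have R_sum : ∀ {ι : Type} (s : Finset ι) (f : ι → K), (∀ i ∈ s, R (f i)) → R (∑ i ∈ s, f i) := by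
    intro ι s f
    classical
    induction s using Finset.induction_on with
    | empty => intro _; simpa using R_zero
    | insert a s ha ih =>
      intro h
      rw [Finset.sum_insert ha]
      exact R_add _ _ (h a (Finset.mem_insert_self _ _))
        (ih fun i hi => h i (Finset.mem_insert_of_mem hi))
  have R_mono : ∀ (c : K) (m : Fin n → ℕ), R (c ^ p * ∏ i, (x i) ^ (m i)) := by
    intro c m
    classical
    let a0 : Fin n → Fin p := fun i => ⟨m i % p, Nat.mod_lt _ hp.pos⟩
    refine ⟨fun a => if a = a0 then c * ∏ i, (x i) ^ (m i / p) else 0, ?_⟩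
    rw [Finset.sum_eq_single a0]
    · simp only [if_true]
      rw [mul_pow, ← Finset.prod_pow, mul_assoc, ← Finset.prod_mul_distrib]
      congr 1
      refine Finset.prod_congr rfl fun i _ => ?_
      rw [← pow_mul, ← pow_add]
      congr 1
      simp only [a0]
      have := Nat.div_add_mod (m i) p
      nlinarith
    · intro b _ hb
      simp [hb, hp0]
    · intro h
      exact absurd (Finset.mem_univ _) h
  have R_mul : ∀ g h, R g → R h → R (g * h) := by
    rintro g h ⟨c, rfl⟩ ⟨c', rfl⟩
    rw [Finset.sum_mul_sum]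
    refine R_sum _ _ fun a _ => R_sum _ _ fun b _ => ?_
    have : (c a ^ p * ∏ i, x i ^ (a i : ℕ)) * (c' b ^ p * ∏ i, x i ^ (b i : ℕ)) =
        (c a * c' b) ^ p * ∏ i, x i ^ ((a i : ℕ) + (b i : ℕ)) := by
      simp only [pow_add, Finset.prod_mul_distrib, mul_pow]
      ring
    rw [this]
    exact R_mono _ _
  have R_pp : ∀ c : K, R (c ^ p) := by
    intro c
    have := R_mono c (fun _ => 0)
    simpa using this
  have R_pow : ∀ g, R g → ∀ m : ℕ, R (g ^ m) := by
    intro g hg m
    induction m with
    | zero => simpa using R_pp 1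
    | succ m ih => rw [pow_succ]; exact R_mul _ _ ih hg
  have R_inv : ∀ g, R g → R g⁻¹ := by
    intro g hg
    by_cases h0 : g = 0
    · rw [h0, inv_zero]; exact R_zero
    · have : g⁻¹ = (g⁻¹) ^ p * g ^ (p - 1) := by
        obtain ⟨q, hq⟩ : ∃ q, p = q + 1 := ⟨p - 1, by have := hp.pos; omega⟩
        rw [hq, Nat.add_sub_cancel, pow_succ, mul_assoc, mul_comm g⁻¹, ← mul_assoc, ← mul_pow,
          inv_mul_cancel₀ h0, one_pow, one_mul]
      rw [this]
      exact R_mul _ _ (R_pp _) (R_pow _ hg _)
  have R_k : ∀ t : k, R (algebraMap k K t) := by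
    intro t
    obtain ⟨s, hs⟩ := (PerfectRing.bijective_frobenius (R := k) (p := p)).2 t
    have : algebraMap k K t = (algebraMap k K s) ^ p := by
      rw [← map_pow, ← hs]
      try rfl
    rw [this]
    exact R_pp _
  have R_x : ∀ i, R (x i) := by
    intro i
    classical
    have := R_mono 1 (Pi.single i 1)
    have e : ∏ j, x j ^ ((Pi.single i 1 : Fin n → ℕ) j) = x i := by
      rw [Finset.prod_eq_single i]
      · simp
      · intro b _ hb
        simp [Pi.single_eq_of_ne hb]
      · simp
    rw [e, one_pow, one_mul] at this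
    exact this
  have hg : g ∈ IntermediateField.adjoin k (Set.range x) := by rw [hx']; trivial
  exact IntermediateField.adjoin_induction (F := k) (p := fun z _ => R z)
    (by rintro _ ⟨i, rfl⟩; exact R_x i) R_k (fun a b _ _ => R_add a b)
    (fun a _ => R_inv a) (fun a b _ _ => R_mul a b) hg

theorem PCoord.exists_of_adjoin {p : ℕ} [Fact p.Prime] {k K : Type*} [Field k] [CharP k p]
    [PerfectRing k p] [Field K] [CharP K p] [Algebra k K] {n : ℕ} (x : Fin n → K)
    (hx : AlgebraicIndependent k x) (hx' : IntermediateField.adjoin k (Set.range x) = ⊤) :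
    ∃ X : PCoord p K n, X.x = x := by
  choose D hD using fun j => PCoord.exists_der x hx hx' j
  exact ⟨{ x := x, d := D, d_x := fun i j => hD j i,
           span := fun g => PCoord.exists_span (k := k) x hx' g }, rfl⟩


end Pool.Agent.Helper271.CT
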