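import Mathlib

universe u

open AlgebraicGeometry CategoryTheory Limits

namespace Pool.Agent.Helper271.CT


theorem aux_homOfLE_val {X : Scheme.{u}} {U V : X.Opens} (h : U ≤ V) (x : (U : Scheme.{u})) :
    V.ι (X.homOfLE h x) = U.ι x := by
  rw [← Scheme.Hom.comp_apply, Scheme.homOfLE_ι]

theorem aux_locDir {X : Scheme.{u}} (F : X.affineOpens ⥤ Scheme.{u})
    (η : ∀ U : X.affineOpens, (U.1 : Scheme.{u}) ⟶ F.obj U)
    (hη : ∀ {U V : X.affineOpens} (h : U ⟶ V), X.homOfLE (leOfHom h) ≫ η V = η U ≫ F.map h)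
    (hbij : ∀ U : X.affineOpens, Function.Bijective (η U)) :
    (F ⋙ Scheme.forget).IsLocallyDirected where
  cond {i j k} fi fj xi xj heq := by
    replace heq : F.map fi xi = F.map fj xj := heq
    obtain ⟨yi, hyi⟩ := (hbij i).2 xi
    obtain ⟨yj, hyj⟩ := (hbij j).2 xj
    have h1 : X.homOfLE (leOfHom fi) yi = X.homOfLE (leOfHom fj) yj := by
      apply (hbij k).1
      rw [← Scheme.Hom.comp_apply, ← Scheme.Hom.comp_apply, hη, hη, Scheme.Hom.comp_apply,
        Scheme.Hom.comp_apply, hyi, hyj, heq]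
    have h2 : i.1.ι yi = j.1.ι yj := by
      rw [← aux_homOfLE_val (leOfHom fi) yi, h1, aux_homOfLE_val]
    have h3 : i.1.ι yi ∈ i.1 ⊓ j.1 := by
      refine ⟨yi.2, ?_⟩
      rw [h2]
      exact yj.2
    obtain ⟨l, hl, hxl, hli⟩ := TopologicalSpace.Opens.isBasis_iff_nbhd.mp
      X.isBasis_affineOpens h3
    let L : X.affineOpens := ⟨l, hl⟩
    have hLi : L ≤ i := hli.trans inf_le_left
    have hLj : L ≤ j := hli.trans inf_le_right
    obtain ⟨z, hz⟩ : ∃ z : (L.1 : Scheme.{u}), L.1.ι z = i.1.ι yi := ⟨⟨_, hxl⟩, rfl⟩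
    refine ⟨L, homOfLE hLi, homOfLE hLj, η L z, ?_, ?_⟩
    · show F.map (homOfLE hLi) (η L z) = xi
      rw [← Scheme.Hom.comp_apply, ← hη, Scheme.Hom.comp_apply, ← hyi]
      congr 1
      apply i.1.ι.isOpenEmbedding.injective
      rw [aux_homOfLE_val, hz]
    · show F.map (homOfLE hLj) (η L z) = xj
      rw [← Scheme.Hom.comp_apply, ← hη, Scheme.Hom.comp_apply, ← hyj]
      congr 1
      apply j.1.ι.isOpenEmbedding.injective
      rw [aux_homOfLE_val, ← h2, hz]

theorem glue_thickening {X S S' : Scheme.{u}} (F : X.affineOpens ⥤ Scheme.{u})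
    (hF : ∀ {U V : X.affineOpens} (h : U ⟶ V), IsOpenImmersion (F.map h))
    (η : ∀ U : X.affineOpens, (U.1 : Scheme.{u}) ⟶ F.obj U)
    (hη : ∀ {U V : X.affineOpens} (h : U ⟶ V), X.homOfLE (leOfHom h) ≫ η V = η U ≫ F.map h)
    (hbij : ∀ U : X.affineOpens, Function.Bijective (η U))
    (s : X ⟶ S) (κ : S ⟶ S') (c : ∀ U : X.affineOpens, F.obj U ⟶ S')
    (hc : ∀ {U V : X.affineOpens} (h : U ⟶ V), F.map h ≫ c V = c U)
    (hpb : ∀ U : X.affineOpens, IsPullback (η U) (U.1.ι ≫ s) (c U) κ) :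
    ∃ (X' : Scheme.{u}) (f : X' ⟶ S') (i : X ⟶ X') (ι : ∀ U : X.affineOpens, F.obj U ⟶ X'),
      (∀ U, IsOpenImmersion (ι U)) ∧ (∀ x : X', ∃ (U : X.affineOpens) (y : F.obj U), ι U y = x) ∧
      (∀ U, ι U ≫ f = c U) ∧ IsPullback i s f κ := by
  have : ∀ {i j : X.affineOpens} (f : i ⟶ j), IsOpenImmersion (F.map f) := fun f => hF f
  have : (F ⋙ Scheme.forget).IsLocallyDirected := aux_locDir F η hη hbij
  let f : colimit F ⟶ S' := colimit.desc F ⟨S', { app := c, naturality := fun U V h => by simp [hc] }⟩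
  have hf : ∀ U, colimit.ι F U ≫ f = c U := fun U => by simp [f]
  have hglue : ∀ {U V : X.affineOpens} (h : U ⟶ V),
      X.homOfLE (leOfHom h) ≫ η V ≫ colimit.ι F V = η U ≫ colimit.ι F U := by
    intro U V h
    rw [← Category.assoc, hη h, Category.assoc, colimit.w]
  let i : X ⟶ colimit F := X.directedAffineCover.glueMorphismsOfLocallyDirected
    (fun U => η U ≫ colimit.ι F U) (fun {U V} h => hglue h)
  have hi : ∀ U : X.affineOpens, U.1.ι ≫ i = η U ≫ colimit.ι F U := fun U =>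
    X.directedAffineCover.map_glueMorphismsOfLocallyDirected
      (fun U => η U ≫ colimit.ι F U) (fun {U V} h => hglue h) U
  have hrange : ∀ U : X.affineOpens, i ⁻¹ᵁ (colimit.ι F U).opensRange = (U.1.ι).opensRange := by
    intro U
    ext x
    constructor
    · intro hx
      obtain ⟨y, hy⟩ : ∃ y, colimit.ι F U y = i x := hx
      obtain ⟨V, hV, hxV, _⟩ := TopologicalSpace.Opens.isBasis_iff_nbhd.mp
        X.isBasis_affineOpens (show x ∈ (⊤ : X.Opens) from trivial)
      obtain ⟨V', hV'⟩ : ∃ V' : X.affineOpens, V'.1 = V := ⟨⟨V, hV⟩, rfl⟩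
      rw [← hV'] at hxV
      obtain ⟨x', hx'⟩ : ∃ x' : (V'.1 : Scheme.{u}), V'.1.ι x' = x := ⟨⟨x, hxV⟩, rfl⟩
      have h1 : colimit.ι F U y = colimit.ι F V' (η V' x') := by
        rw [hy, ← hx', ← Scheme.Hom.comp_apply, ← Scheme.Hom.comp_apply, hi]
      obtain ⟨W, gi, gj, w, hw1, hw2⟩ := (Scheme.IsLocallyDirected.ι_eq_ι_iff F).1 h1
      obtain ⟨w', rfl⟩ := (hbij W).2 w
      have h2 : X.homOfLE (leOfHom gj) w' = x' := by
        apply (hbij V').1
        rw [← Scheme.Hom.comp_apply, hη, Scheme.Hom.comp_apply, hw2]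
      have h3 : W.1.ι w' = x := by
        rw [← hx', ← h2, aux_homOfLE_val]
      refine ⟨X.homOfLE (leOfHom gi) w', ?_⟩
      rw [aux_homOfLE_val, h3]
    · rintro ⟨x', rfl⟩
      refine ⟨η U x', ?_⟩
      rw [← Scheme.Hom.comp_apply, ← Scheme.Hom.comp_apply, hi]
  have hpb2 : ∀ U : X.affineOpens, IsPullback (η U) U.1.ι (colimit.ι F U) i := fun U =>
    IsOpenImmersion.isPullback _ _ _ _ (hi U) (hrange U)
  have key : ∀ U : X.affineOpens, IsPullback (pullback.snd i (colimit.ι F U))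
      (pullback.fst i (colimit.ι F U) ≫ s) (colimit.ι F U ≫ f) κ := by
    intro U
    rw [hf U]
    refine IsPullback.of_iso (hpb U) (hpb2 U).flip.isoPullback (Iso.refl _) (Iso.refl _)
      (Iso.refl _) ?_ ?_ ?_ ?_
    · rw [Iso.refl_hom, Category.comp_id]
      exact ((hpb2 U).flip.isoPullback_hom_snd).symm
    · rw [Iso.refl_hom, Category.comp_id, ← Category.assoc]
      congr 1
      exact ((hpb2 U).flip.isoPullback_hom_fst).symm
    · rw [Iso.refl_hom, Iso.refl_hom, Category.comp_id, Category.id_comp]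
    · rw [Iso.refl_hom, Iso.refl_hom, Category.comp_id, Category.id_comp]
  refine ⟨colimit F, f, i, fun U => colimit.ι F U, fun U => inferInstance,
    fun x => Scheme.IsLocallyDirected.ι_jointly_surjective F x, hf, ?_⟩
  apply Scheme.isPullback_of_openCover i s f κ (Scheme.IsLocallyDirected.openCover F)
  intro U
  exact key U



end Pool.Agent.Helper271.CT
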