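import Mathlib

universe u

open AlgebraicGeometry CategoryTheory

namespace Pool.Agent.Helper271.CT

/-- `π : T → A` is a flat lifting modulo `p²`: surjective, kernel `(p)`, annihilator of `p` equal
to the kernel. -/
structure IsLift (p : ℕ) {T A : Type*} [CommRing T] [CommRing A] (π : T →+* A) : Prop where
  surj : Function.Surjective π
  map_p : π (p : T) = 0
  ker : ∀ t, π t = 0 → ∃ u, t = p * u
  ann : ∀ t, (p : T) * t = 0 ↔ π t = 0


theorem il_pp {p : ℕ} {T A : Type*} [CommRing T] [CommRing A] {π : T →+* A} (hπ : IsLift p π)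
    (t : T) : (p : T) * ((p : T) * t) = 0 := by
  rw [hπ.ann, map_mul, hπ.map_p, zero_mul]

theorem il_unit {p : ℕ} {T A : Type*} [CommRing T] [CommRing A] {π : T →+* A} (hπ : IsLift p π)
    (t : T) (h : IsUnit (π t)) : IsUnit t := by
  obtain ⟨w, hw⟩ := h.exists_right_inv
  obtain ⟨v, rfl⟩ := hπ.surj w
  have h1 : π (t * v - 1) = 0 := by
    rw [map_sub, map_mul, hw, map_one, sub_self]
  obtain ⟨u, hu⟩ := hπ.ker _ h1
  refine IsUnit.of_mul_eq_one (v * (1 - p * u)) ?_
  have h2 : t * v = 1 + p * u := by rw [← hu]; ring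
  have h3 := il_pp hπ (u * u)
  calc t * (v * (1 - p * u)) = (t * v) * (1 - p * u) := by ring
    _ = (1 + p * u) * (1 - p * u) := by rw [h2]
    _ = 1 - (p : T) * (p * (u * u)) := by ring
    _ = 1 := by rw [h3, sub_zero]

/-- TARGET -/
theorem IsLift.isLocalization {p : ℕ} {T A T' A' : Type*} [CommRing T] [CommRing A] [CommRing T']
    [CommRing A'] {π : T →+* A} {π' : T' →+* A'} (hπ : IsLift p π) (hπ' : IsLift p π')
    (f : T →+* T') (g : A →+* A') (hfg : π'.comp f = g.comp π) (M : Submonoid A)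
    (hg : @IsLocalization A _ M A' _ g.toAlgebra) :
    @IsLocalization T _ (M.comap π) T' _ f.toAlgebra := by
  have hc : ∀ t, π' (f t) = g (π t) := fun t => RingHom.congr_fun hfg t
  letI := g.toAlgebra
  letI := f.toAlgebra
  haveI : IsLocalization M A' := hg
  have hgu : ∀ s ∈ M, IsUnit (g s) := fun s hs => IsLocalization.map_units A' (⟨s, hs⟩ : M)
  have hgs : ∀ z : A', ∃ a s, s ∈ M ∧ z * g s = g a := by
    intro z
    obtain ⟨⟨a, s⟩, h⟩ := IsLocalization.surj M z
    exact ⟨a, s, s.2, h⟩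
  have hge : ∀ x y : A, g x = g y → ∃ c ∈ M, c * x = c * y := by
    intro x y h
    obtain ⟨c, hc⟩ := IsLocalization.exists_of_eq (M := M) (S := A') (x := x) (y := y) h
    exact ⟨c, c.2, hc⟩
  rw [isLocalization_iff]
  refine ⟨?_, ?_, ?_⟩
  · rintro ⟨s, hs⟩
    show IsUnit (f s)
    refine il_unit hπ' _ ?_
    rw [hc]
    exact hgu _ hs
  · intro t
    obtain ⟨a', s', hs', h1⟩ := hgs (π' t)
    obtain ⟨a, rfl⟩ := hπ.surj a'
    obtain ⟨s, rfl⟩ := hπ.surj s'
    obtain ⟨u, hu⟩ := hπ'.ker (t * f s - f a) (by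
      rw [map_sub, map_mul, hc, hc, h1, sub_self])
    obtain ⟨a2', s2', hs2', h2⟩ := hgs (π' u)
    obtain ⟨a2, rfl⟩ := hπ.surj a2'
    obtain ⟨s2, rfl⟩ := hπ.surj s2'
    obtain ⟨v, hv⟩ := hπ'.ker (u * f s2 - f a2) (by
      rw [map_sub, map_mul, hc, hc, h2, sub_self])
    refine ⟨(a * s2 + p * a2, ⟨s * s2, ?_⟩), ?_⟩
    · show π (s * s2) ∈ M
      rw [map_mul]
      exact M.mul_mem hs' hs2'
    · show t * f (s * s2) = f (a * s2 + p * a2)
      have h3 := il_pp hπ' v
      rw [map_mul, map_add, map_mul, map_mul, map_natCast]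
      have h4 : t * f s = f a + p * u := by rw [← hu]; ring
      have h5 : u * f s2 = f a2 + p * v := by rw [← hv]; ring
      calc t * (f s * f s2) = (t * f s) * f s2 := by ring
        _ = f a * f s2 + p * (u * f s2) := by rw [h4]; ring
        _ = f a * f s2 + p * f a2 + p * (p * v) := by rw [h5]; ring
        _ = f a * f s2 + p * f a2 := by rw [h3, add_zero]
  · intro t1 t2 h
    have h' : f t1 = f t2 := h
    have h1 : g (π (t1 - t2)) = g 0 := by
      rw [← hc, map_sub, h', sub_self, map_zero, map_zero]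
    obtain ⟨s', hs', h2⟩ := hge _ _ h1
    obtain ⟨s, rfl⟩ := hπ.surj s'
    obtain ⟨u, hu⟩ := hπ.ker (s * (t1 - t2)) (by rw [map_mul, h2, mul_zero])
    have h3 : (p : T') * f u = 0 := by
      have : f (s * (t1 - t2)) = p * f u := by rw [hu, map_mul, map_natCast]
      rw [← this, map_mul, map_sub, h', sub_self, mul_zero]
    have h4 : g (π u) = g 0 := by
      rw [← hc, map_zero]
      exact (hπ'.ann _).1 h3
    obtain ⟨s2', hs2', h5⟩ := hge _ _ h4
    obtain ⟨s2, rfl⟩ := hπ.surj s2'
    have h6 : (p : T) * (s2 * u) = 0 := by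
      rw [hπ.ann, map_mul, h5, mul_zero]
    refine ⟨⟨s2 * s, ?_⟩, ?_⟩
    · show π (s2 * s) ∈ M
      rw [map_mul]
      exact M.mul_mem hs2' hs'
    · show s2 * s * t1 = s2 * s * t2
      have : s2 * s * t1 - s2 * s * t2 = 0 := by
        calc s2 * s * t1 - s2 * s * t2 = s2 * (s * (t1 - t2)) := by ring
          _ = p * (s2 * u) := by rw [hu]; ring
          _ = 0 := h6
      exact sub_eq_zero.1 this



theorem IsLift.bijective_comap {p : ℕ} {T A : Type*} [CommRing T] [CommRing A]
    {π : T →+* A} (hπ : IsLift p π) : Function.Bijective (PrimeSpectrum.comap π) := by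
  have hp2 : (p : T) * p = 0 := (hπ.ann p).2 hπ.map_p
  refine ⟨PrimeSpectrum.comap_injective_of_surjective π hπ.surj, ?_⟩
  rw [← Set.range_eq_univ, range_comap_of_surjective _ π hπ.surj,
    Set.eq_univ_iff_forall]
  intro q t ht
  obtain ⟨u, rfl⟩ := hπ.ker t ht
  have hpq : (p : T) ∈ q.asIdeal := by
    have h0 : (p : T) * p ∈ q.asIdeal := by rw [hp2]; exact zero_mem _
    rcases q.2.mem_or_mem h0 with h | h <;> exact h
  exact Ideal.mul_mem_right _ _ hpq

theorem IsLift.flat {p : ℕ} {R k T A : Type*} [CommRing R] [Field k] [CommRing T] [CommRing A]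
    {r : R →+* k} {π : T →+* A} (hr : IsLift p r) (hπ : IsLift p π)
    (ρ : R →+* T) (α : k →+* A) (h : π.comp ρ = α.comp r) : ρ.Flat := by
  let _ := ρ.toAlgebra
  change Module.Flat R T
  rw [Module.Flat.iff_rTensor_injective']
  intro I
  have hp2 : (p : R) * p = 0 := (hr.ann p).2 hr.map_p
  have hps : ∀ t : T, (p : R) • t = (p : T) * t := by
    intro t
    rw [Algebra.smul_def, map_natCast]
  have hunit : ∀ x : R, r x ≠ 0 → IsUnit x := by
    intro x hx
    obtain ⟨y, hy⟩ := hr.surj (r x)⁻¹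
    have h1 : r (x * y - 1) = 0 := by
      rw [map_sub, map_mul, hy, mul_inv_cancel₀ hx, map_one, sub_self]
    obtain ⟨u, hu⟩ := hr.ker _ h1
    have h2 : x * (y * (1 - p * u)) = 1 := by
      have h3 : x * y = 1 + p * u := by rw [← hu]; ring
      calc x * (y * (1 - p * u)) = (x * y) * (1 - p * u) := by ring
        _ = 1 - (p * p) * (u * u) := by rw [h3]; ring
        _ = 1 := by rw [hp2]; ring
    exact IsUnit.of_mul_eq_one _ h2
  by_cases hI0 : I = ⊥
  · subst hI0
    rw [injective_iff_map_eq_zero]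
    intro z hz0
    clear hz0
    induction z using TensorProduct.induction_on with
    | zero => rfl
    | tmul x t =>
      have : x = 0 := Subsingleton.elim _ _
      rw [this, TensorProduct.zero_tmul]
    | add a b ha hb => rw [ha, hb, add_zero]
  by_cases hI1 : ∀ x ∈ I, r x = 0
  · have hpI : (p : R) ∈ I := by
      obtain ⟨x, hx, hx0⟩ := Submodule.exists_mem_ne_zero_of_ne_bot hI0
      obtain ⟨u, rfl⟩ := hr.ker x (hI1 x hx)
      have hu : r u ≠ 0 := fun h => hx0 ((hr.ann u).2 h)
      obtain ⟨v, hv⟩ := hunit u hu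
      have h1 : (p : R) = p * u * (v⁻¹ : Rˣ) := by
        rw [← hv, mul_assoc, Units.mul_inv, mul_one]
      rw [h1]
      exact I.mul_mem_right _ hx
    have hz : ∀ z : TensorProduct R I T, ∃ t : T,
        z = TensorProduct.tmul R (⟨(p : R), hpI⟩ : I) t := by
      intro z
      induction z using TensorProduct.induction_on with
      | zero => exact ⟨0, by rw [TensorProduct.tmul_zero]⟩
      | tmul x t =>
        obtain ⟨u, hu⟩ := hr.ker x.1 (hI1 _ x.2)
        refine ⟨u • t, ?_⟩
        rw [← TensorProduct.smul_tmul]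
        congr 1
        apply Subtype.ext
        rw [hu]
        change (p : R) * u = u * p
        ring
      | add a b ha hb =>
        obtain ⟨t, rfl⟩ := ha
        obtain ⟨s, rfl⟩ := hb
        exact ⟨t + s, by rw [TensorProduct.tmul_add]⟩
    rw [injective_iff_map_eq_zero]
    intro z h0
    obtain ⟨t, rfl⟩ := hz z
    rw [LinearMap.rTensor_tmul] at h0
    have h1 := congrArg (TensorProduct.lid R T) h0
    rw [TensorProduct.lid_tmul, map_zero] at h1
    have h2 : (p : T) * t = 0 := by
      rw [← hps]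
      exact h1
    obtain ⟨s, rfl⟩ := hπ.ker t ((hπ.ann t).1 h2)
    rw [← hps, ← TensorProduct.smul_tmul]
    have h3 : (p : R) • (⟨(p : R), hpI⟩ : I) = 0 := by
      apply Subtype.ext
      exact hp2
    rw [h3, TensorProduct.zero_tmul]
  · push Not at hI1
    obtain ⟨x, hx, hx0⟩ := hI1
    have hT : I = ⊤ := Ideal.eq_top_of_isUnit_mem _ hx (hunit x hx0)
    subst hT
    exact (LinearEquiv.rTensor T (Submodule.topEquiv : (⊤ : Ideal R) ≃ₗ[R] R)).injective

theorem IsLift.isPullback {p : ℕ} {R k T A : Type u} [CommRing R] [CommRing k] [CommRing T]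
    [CommRing A] {r : R →+* k} {π : T →+* A} (hr : IsLift p r) (hπ : IsLift p π)
    (ρ : R →+* T) (α : k →+* A) (h : π.comp ρ = α.comp r) :
    IsPullback (Spec.map (CommRingCat.ofHom π)) (Spec.map (CommRingCat.ofHom α))
      (Spec.map (CommRingCat.ofHom ρ)) (Spec.map (CommRingCat.ofHom r)) := by
  apply isPullback_SpecMap_of_isPushout
  have w : CommRingCat.ofHom ρ ≫ CommRingCat.ofHom π = CommRingCat.ofHom r ≫ CommRingCat.ofHom α := by
    rw [← CommRingCat.ofHom_comp, ← CommRingCat.ofHom_comp, h]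
  have hker : ∀ s : Limits.PushoutCocone (CommRingCat.ofHom ρ) (CommRingCat.ofHom r),
      RingHom.ker π ≤ RingHom.ker s.inl.hom := by
    intro s t ht
    obtain ⟨u, rfl⟩ := hπ.ker t ht
    have h0 : ((p : ℕ) : s.pt) = 0 := by
      have h1 := congrArg s.inr.hom hr.map_p
      rw [map_natCast, map_natCast, map_zero] at h1
      exact h1
    rw [RingHom.mem_ker, map_mul, map_natCast, h0, zero_mul]
  refine ⟨⟨w⟩, ⟨Limits.PushoutCocone.IsColimit.mk w
    (fun s => CommRingCat.ofHom (π.liftOfSurjective hπ.surj ⟨s.inl.hom, hker s⟩)) ?_ ?_ ?_⟩⟩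
  · intro s
    ext t
    exact RingHom.liftOfSurjective_comp_apply π hπ.surj ⟨s.inl.hom, hker s⟩ t
  · intro s
    ext c
    obtain ⟨x, rfl⟩ := hr.surj c
    have h1 : α (r x) = π (ρ x) := (RingHom.congr_fun h x).symm
    have h2 : s.inl.hom (ρ x) = s.inr.hom (r x) :=
      RingHom.congr_fun (congrArg CommRingCat.Hom.hom s.condition) x
    change (π.liftOfSurjective hπ.surj ⟨s.inl.hom, hker s⟩) (α (r x)) = s.inr.hom (r x)
    rw [h1, RingHom.liftOfSurjective_comp_apply π hπ.surj ⟨s.inl.hom, hker s⟩, ← h2]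
  · intro s m hm1 _
    ext a
    obtain ⟨t, rfl⟩ := hπ.surj a
    have h1 : m.hom (π t) = s.inl.hom t :=
      RingHom.congr_fun (congrArg CommRingCat.Hom.hom hm1) t
    change m.hom (π t) = (π.liftOfSurjective hπ.surj ⟨s.inl.hom, hker s⟩) (π t)
    rw [h1, RingHom.liftOfSurjective_comp_apply π hπ.surj ⟨s.inl.hom, hker s⟩]



theorem IsLift.bij_of_bij {p : ℕ} {T A T' A' : Type*} [CommRing T] [CommRing A] [CommRing T']
    [CommRing A'] {π : T →+* A} {π' : T' →+* A'} (hπ : IsLift p π) (hπ' : IsLift p π')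
    (f : T →+* T') (g : A →+* A') (hfg : π'.comp f = g.comp π) (hg : Function.Bijective g) :
    Function.Bijective f := by
  have hc : ∀ t, π' (f t) = g (π t) := fun t => by
    have := congrArg (fun h : T →+* A' => h t) hfg
    simpa using this
  have hz : ∀ t, π' (f t) = 0 → π t = 0 := by
    intro t ht
    rw [hc] at ht
    exact hg.1 (by rw [ht, map_zero])
  constructor
  · rw [injective_iff_map_eq_zero]
    intro t ht
    have h1 : π t = 0 := hz t (by rw [ht, map_zero])
    obtain ⟨u, rfl⟩ := hπ.ker t h1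
    rw [map_mul, map_natCast] at ht
    exact (hπ.ann u).2 (hz u ((hπ'.ann _).1 ht))
  · have hs : ∀ t', ∃ t u', t' = f t + p * u' := by
      intro t'
      obtain ⟨a, ha⟩ := hg.2 (π' t')
      obtain ⟨t, rfl⟩ := hπ.surj a
      rw [← hc] at ha
      have : π' (t' - f t) = 0 := by rw [map_sub, ha, sub_self]
      obtain ⟨u, hu⟩ := hπ'.ker _ this
      exact ⟨t, u, by rw [← hu]; ring⟩
    intro t'
    obtain ⟨t, u', h1⟩ := hs t'
    obtain ⟨s, v', h2⟩ := hs u'
    have hpp : (p : T') * (p * v') = 0 := by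
      rw [hπ'.ann, map_mul, map_natCast]
      have := hπ'.map_p
      rw [map_natCast] at this
      rw [this, zero_mul]
    refine ⟨t + p * s, ?_⟩
    rw [h1, h2, mul_add, hpp, map_add, map_mul, map_natCast, add_zero]

theorem IsLift.localize {p : ℕ} {T A : Type*} [CommRing T] [CommRing A]
    {π : T →+* A} (hπ : IsLift p π) (q : Ideal T) [q.IsPrime] (Q : Ideal A) [Q.IsPrime]
    (hq : q = Q.comap π) : IsLift p (Localization.localRingHom q Q π hq) where
  surj := by
    intro x
    obtain ⟨a, s, rfl⟩ := IsLocalization.exists_mk'_eq Q.primeCompl x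
    obtain ⟨t, rfl⟩ := hπ.surj a
    obtain ⟨s, hs⟩ := s
    obtain ⟨m, rfl⟩ := hπ.surj s
    have hm : m ∈ q.primeCompl := by
      intro h; rw [hq] at h; exact hs h
    exact ⟨IsLocalization.mk' _ t (⟨m, hm⟩ : q.primeCompl), by rw [Localization.localRingHom_mk']⟩
  map_p := by
    have := hπ.map_p
    rw [map_natCast] at this ⊢
    have h2 := congrArg (algebraMap A (Localization.AtPrime Q)) this
    rwa [map_natCast, map_zero] at h2
  ker := by
    intro x hx
    obtain ⟨t, s, rfl⟩ := IsLocalization.exists_mk'_eq q.primeCompl x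
    rw [Localization.localRingHom_mk', IsLocalization.mk'_eq_zero_iff] at hx
    obtain ⟨⟨m, hm⟩, hm2⟩ := hx
    obtain ⟨n, rfl⟩ := hπ.surj m
    have hn : n ∈ q.primeCompl := by
      intro h; rw [hq] at h; exact hm h
    simp only at hm2
    rw [← map_mul] at hm2
    obtain ⟨u, hu⟩ := hπ.ker _ hm2
    refine ⟨IsLocalization.mk' _ u (⟨n, hn⟩ * s), ?_⟩
    have h1 : IsLocalization.mk' (Localization.AtPrime q) t s
        = IsLocalization.mk' (Localization.AtPrime q) (n * t) (⟨n, hn⟩ * s) := by
      rw [IsLocalization.mk'_eq_iff_eq]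
      congr 1
      simp only [Submonoid.coe_mul]
      ring
    rw [h1, hu, ← IsLocalization.mul_mk'_eq_mk'_of_mul, map_natCast]
  ann := by
    intro x
    obtain ⟨t, s, rfl⟩ := IsLocalization.exists_mk'_eq q.primeCompl x
    rw [Localization.localRingHom_mk', IsLocalization.mk'_eq_zero_iff,
      ← map_natCast (algebraMap T (Localization.AtPrime q)),
      IsLocalization.mul_mk'_eq_mk'_of_mul, IsLocalization.mk'_eq_zero_iff]
    constructor
    · rintro ⟨⟨m, hm⟩, hm2⟩
      simp only at hm2
      have h3 : (p : T) * (m * t) = 0 := by rw [← hm2]; ring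
      rw [hπ.ann, map_mul] at h3
      have hn : π m ∈ Q.primeCompl := by
        intro h; apply hm; rw [hq]; exact h
      exact ⟨⟨π m, hn⟩, h3⟩
    · rintro ⟨⟨m, hm⟩, hm2⟩
      obtain ⟨n, rfl⟩ := hπ.surj m
      have hn : n ∈ q.primeCompl := by
        intro h; rw [hq] at h; exact hm h
      simp only at hm2
      rw [← map_mul, ← hπ.ann] at hm2
      exact ⟨⟨n, hn⟩, by simp only; rw [← hm2]; ring⟩

theorem local_square {T A T' A' : Type*} [CommRing T] [CommRing A] [CommRing T']
    [CommRing A'] {π : T →+* A} {π' : T' →+* A'} (f : T →+* T') (g : A →+* A')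
    (hfg : π'.comp f = g.comp π) (q : Ideal T) [q.IsPrime] (Q : Ideal A) [Q.IsPrime]
    (q' : Ideal T') [q'.IsPrime] (Q' : Ideal A') [Q'.IsPrime] (h1 : q = Q.comap π)
    (h2 : q' = Q'.comap π') (h3 : q = q'.comap f) (h4 : Q = Q'.comap g) :
    (Localization.localRingHom q' Q' π' h2).comp (Localization.localRingHom q q' f h3)
      = (Localization.localRingHom Q Q' g h4).comp (Localization.localRingHom q Q π h1) := by
  rw [← Localization.localRingHom_comp, ← Localization.localRingHom_comp]
  congr 1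

theorem isIso_stalk_iff {R S : CommRingCat.{u}} (φ : R ⟶ S) (x : PrimeSpectrum S) :
    IsIso ((Spec.map φ).stalkMap x) ↔ Function.Bijective (Localization.localRingHom
      (x.comap φ.hom).asIdeal x.asIdeal φ.hom rfl) := by
  have h := (MorphismProperty.isomorphisms CommRingCat).arrow_mk_iso_iff
    (Scheme.arrowStalkMapSpecIso φ x)
  rw [MorphismProperty.isomorphisms.iff, MorphismProperty.isomorphisms.iff] at h
  rw [h, ConcreteCategory.isIso_iff_bijective]
  rfl


theorem IsLift.isOpenImmersion {p : ℕ} {T A T' A' : Type u} [CommRing T] [CommRing A]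
    [CommRing T'] [CommRing A'] {π : T →+* A} {π' : T' →+* A'} (hπ : IsLift p π)
    (hπ' : IsLift p π') (f : T →+* T') (g : A →+* A') (hfg : π'.comp f = g.comp π)
    (hg : IsOpenImmersion (Spec.map (CommRingCat.ofHom g))) :
    IsOpenImmersion (Spec.map (CommRingCat.ofHom f)) := by
  rw [IsOpenImmersion.iff_isIso_stalkMap] at hg ⊢
  obtain ⟨hg1, hg2⟩ := hg
  have hcomp : ∀ x : PrimeSpectrum A', PrimeSpectrum.comap f (PrimeSpectrum.comap π' x)
      = PrimeSpectrum.comap π (PrimeSpectrum.comap g x) := by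
    intro x
    rw [← PrimeSpectrum.comap_comp_apply, ← PrimeSpectrum.comap_comp_apply, hfg]
  constructor
  · have e1 : Topology.IsOpenEmbedding (PrimeSpectrum.comap g) := hg1
    have hh : ∀ {T A : Type u} [CommRing T] [CommRing A] {π : T →+* A} (hπ : IsLift p π),
        IsHomeomorph (PrimeSpectrum.comap π) := by
      intro T A _ _ π hπ
      rw [isHomeomorph_iff_isEmbedding_surjective]
      exact ⟨(PrimeSpectrum.isClosedEmbedding_comap_of_surjective _ _ hπ.surj).isEmbedding,
        hπ.bijective_comap.2⟩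
    have e2 : Topology.IsOpenEmbedding (PrimeSpectrum.comap f) := by
      have h1 := (hh hπ).isOpenEmbedding.comp e1
      have h2 : PrimeSpectrum.comap π ∘ PrimeSpectrum.comap g
          = PrimeSpectrum.comap f ∘ PrimeSpectrum.comap π' := by
        funext x; exact (hcomp x).symm
      rw [h2] at h1
      have h3 : PrimeSpectrum.comap f = (PrimeSpectrum.comap f ∘ PrimeSpectrum.comap π')
          ∘ ((hh hπ').homeomorph _).symm := by
        funext x
        have := ((hh hπ').homeomorph _).apply_symm_apply x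
        have h4 : PrimeSpectrum.comap π' (((hh hπ').homeomorph _).symm x) = x := this
        simp only [Function.comp_apply, h4]
      rw [h3]
      exact h1.comp ((hh hπ').homeomorph _).symm.isOpenEmbedding
    exact e2
  · intro y
    have key : ∀ y : PrimeSpectrum T', IsIso ((Spec.map (CommRingCat.ofHom f)).stalkMap y) := by
      intro y
      rw [isIso_stalk_iff]
      obtain ⟨x, rfl⟩ := hπ'.bijective_comap.2 y
      have hx : IsIso ((Spec.map (CommRingCat.ofHom g)).stalkMap x) := hg2 x
      rw [isIso_stalk_iff] at hx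
      have hQ : ((PrimeSpectrum.comap π' x).comap f).asIdeal
          = (x.comap g).asIdeal.comap π := by
        rw [hcomp]; rfl
      refine IsLift.bij_of_bij (p := p) (hπ.localize _ _ hQ)
        (hπ'.localize (PrimeSpectrum.comap π' x).asIdeal x.asIdeal rfl) _ _ ?_ hx
      exact local_square f g hfg _ _ _ _ hQ rfl rfl rfl
    exact key y


end Pool.Agent.Helper271.CT
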