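import Mathlib
import Pool.Agent.Helper271.CT.Defs
import Pool.Agent.Helper271.CT.Lift

universe u

open AlgebraicGeometry CategoryTheory ClusterLift

namespace Pool.Agent.Helper271.CT

section Split

/-- A Frobenius splitting of a ring `A` of characteristic `p` (the zero ring is allowed). -/
structure FrobSplit (p : ℕ) (A : Type*) [CommRing A] where
  σ : A →+ A
  pow_mul : ∀ a b, σ (a ^ p * b) = a * σ b
  one : σ 1 = 1
  p_eq_zero : (p : A) = 0

variable {p : ℕ} [hp : Fact p.Prime] {A : Type*} [CommRing A]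

/-- `CharP A p` or `A` trivial -/
theorem FrobSplit.charP (s : FrobSplit p A) : CharP A p ∨ Subsingleton A := by
  rcases subsingleton_or_nontrivial A with h | h
  · exact Or.inr h
  · left
    have h1 : ringChar A ∣ p := ringChar.dvd s.p_eq_zero
    rcases (Nat.dvd_prime hp.out).1 h1 with h2 | h2
    · exact absurd h2 CharP.ringChar_ne_one
    · exact ringChar.of_eq h2

theorem fsl_V (w : WittVector p A) (h : w.coeff 0 = 0) :
    ∃ w' : WittVector p A, w = WittVector.verschiebung w' ∧ w'.coeff 0 = w.coeff 1 := by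
  refine ⟨WittVector.mk p (fun n => w.coeff (n + 1)), ?_, rfl⟩
  ext n
  cases n with
  | zero => rw [WittVector.verschiebung_coeff_zero, h]
  | succ n => rw [WittVector.verschiebung_coeff_succ, WittVector.coeff_mk]

theorem fsl_add {w v : WittVector p A} (hw : w.coeff 0 = 0) (hv : v.coeff 0 = 0) :
    (w + v).coeff 0 = 0 ∧ (w + v).coeff 1 = w.coeff 1 + v.coeff 1 := by
  obtain ⟨w', hw', hw1⟩ := fsl_V w hw
  obtain ⟨v', hv', hv1⟩ := fsl_V v hv
  rw [← hw1, ← hv1, hw', hv', ← map_add]
  refine ⟨WittVector.verschiebung_coeff_zero _, ?_⟩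
  rw [WittVector.verschiebung_coeff_succ]
  exact map_add (WittVector.constantCoeff : WittVector p A →+* A) w' v'

theorem fsl_sub {w v : WittVector p A} (hw : w.coeff 0 = 0) (hv : v.coeff 0 = 0) :
    (w - v).coeff 0 = 0 ∧ (w - v).coeff 1 = w.coeff 1 - v.coeff 1 := by
  obtain ⟨w', hw', hw1⟩ := fsl_V w hw
  obtain ⟨v', hv', hv1⟩ := fsl_V v hv
  rw [← hw1, ← hv1, hw', hv', ← map_sub]
  refine ⟨WittVector.verschiebung_coeff_zero _, ?_⟩
  rw [WittVector.verschiebung_coeff_succ]
  exact map_sub (WittVector.constantCoeff : WittVector p A →+* A) w' v'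

theorem fsl_mul [CharP A p] (r : WittVector p A) {w : WittVector p A} (hw : w.coeff 0 = 0) :
    (r * w).coeff 0 = 0 ∧ (r * w).coeff 1 = (r.coeff 0) ^ p * w.coeff 1 := by
  obtain ⟨w', hw', hw1⟩ := fsl_V w hw
  rw [← hw1, hw', mul_comm, ← WittVector.verschiebung_mul_frobenius]
  refine ⟨WittVector.verschiebung_coeff_zero _, ?_⟩
  rw [WittVector.verschiebung_coeff_succ]
  have h1 : (w' * WittVector.frobenius r).coeff 0
      = w'.coeff 0 * (WittVector.frobenius r).coeff 0 :=
    map_mul (WittVector.constantCoeff : WittVector p A →+* A) w' (WittVector.frobenius r)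
  rw [h1, WittVector.coeff_frobenius_charP, mul_comm]

/-- The ideal of Witt vectors `(0, b, …)` with `σ b = 0`. -/
def FrobSplit.J (s : FrobSplit p A) : Ideal (WittVector p A) where
  carrier := {w | w.coeff 0 = 0 ∧ s.σ (w.coeff 1) = 0}
  add_mem' := by
    rintro w v ⟨hw0, hw1⟩ ⟨hv0, hv1⟩
    obtain ⟨h0, h1⟩ := fsl_add hw0 hv0
    refine ⟨h0, ?_⟩
    rw [h1, map_add, hw1, hv1, add_zero]
  zero_mem' := by
    refine ⟨WittVector.zero_coeff p A 0, ?_⟩
    rw [WittVector.zero_coeff, map_zero]
  smul_mem' := by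
    rintro r w ⟨hw0, hw1⟩
    rcases s.charP with h | h
    · obtain ⟨h0, h1⟩ := fsl_mul r hw0
      refine ⟨h0, ?_⟩
      rw [smul_eq_mul, h1, s.pow_mul, hw1, mul_zero]
    · exact ⟨Subsingleton.elim _ _, Subsingleton.elim _ _⟩

/-- The lifting `W₂(A)/V(ker σ)` of `A`. -/
abbrev FrobSplit.T (s : FrobSplit p A) : Type _ := WittVector p A ⧸ s.J

/-- The projection `W₂(A)/V(ker σ) → A`. -/
noncomputable def FrobSplit.π (s : FrobSplit p A) : s.T →+* A :=
  Ideal.Quotient.lift s.J WittVector.constantCoeff (fun _ h => h.1)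

theorem FrobSplit.isLift (s : FrobSplit p A) : IsLift p s.π := by
  have hσ : ∀ b : A, s.σ (b ^ p) = b := by
    intro b
    have := s.pow_mul b 1
    rw [mul_one, s.one, mul_one] at this
    exact this
  have hπ : ∀ w : WittVector p A, s.π (Ideal.Quotient.mk s.J w) = w.coeff 0 := fun w => rfl
  have hpc : ∀ (w : WittVector p A) [CharP A p],
      ((p : WittVector p A) * w).coeff 0 = 0 ∧ ((p : WittVector p A) * w).coeff 1 = w.coeff 0 ^ p := by
    intro w _
    rw [mul_comm]
    exact ⟨WittVector.mul_charP_coeff_zero w, WittVector.mul_charP_coeff_succ w 0⟩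
  refine ⟨?_, ?_, ?_, ?_⟩
  · intro a
    refine ⟨Ideal.Quotient.mk s.J (WittVector.teichmuller p a), ?_⟩
    rw [hπ, WittVector.teichmuller_coeff_zero]
  · rw [map_natCast, s.p_eq_zero]
  · intro t ht
    obtain ⟨w, rfl⟩ := Ideal.Quotient.mk_surjective t
    rw [hπ] at ht
    refine ⟨Ideal.Quotient.mk s.J (WittVector.teichmuller p (s.σ (w.coeff 1))), ?_⟩
    have h1 : ((p : ℕ) : s.T) = Ideal.Quotient.mk s.J (p : WittVector p A) := by
      rw [map_natCast]
    rw [h1, ← map_mul, Ideal.Quotient.eq]
    rcases s.charP with h | h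
    · obtain ⟨h2, h3⟩ := hpc (WittVector.teichmuller p (s.σ (w.coeff 1)))
      obtain ⟨h4, h5⟩ := fsl_sub ht h2
      refine ⟨h4, ?_⟩
      rw [h5, h3, WittVector.teichmuller_coeff_zero, map_sub, hσ, sub_self]
    · exact ⟨Subsingleton.elim _ _, Subsingleton.elim _ _⟩
  · intro t
    obtain ⟨w, rfl⟩ := Ideal.Quotient.mk_surjective t
    rw [hπ]
    have h1 : ((p : ℕ) : s.T) = Ideal.Quotient.mk s.J (p : WittVector p A) := by
      rw [map_natCast]
    rw [h1, ← map_mul, Ideal.Quotient.eq_zero_iff_mem]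
    rcases s.charP with h | h
    · obtain ⟨h2, h3⟩ := hpc w
      constructor
      · rintro ⟨_, h5⟩
        rw [h3, hσ] at h5
        exact h5
      · intro h4
        refine ⟨h2, ?_⟩
        rw [h3, hσ, h4]
    · exact ⟨fun _ => Subsingleton.elim _ _, fun _ => ⟨Subsingleton.elim _ _, Subsingleton.elim _ _⟩⟩


end Split

section Residue


theorem isLift_residue (p : ℕ) [Fact p.Prime] (k : Type u) [Field k] [CharP k p]
    [PerfectRing k p] : IsLift p (residue p k) := by
  have hmul : ∀ w : WittVector p k, (p : TruncatedWittVector p 2 k) * WittVector.truncate 2 w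
      = WittVector.truncate 2 (w * (p : WittVector p k)) := by
    intro w
    rw [map_mul, map_natCast, mul_comm]
  have hres : ∀ w : WittVector p k, residue p k (WittVector.truncate 2 w) = w.coeff 0 := by
    intro w
    exact WittVector.coeff_truncate w 0
  have hmp0 : ∀ w : WittVector p k, (w * (p : WittVector p k)).coeff 0 = 0 :=
    fun w => WittVector.mul_charP_coeff_zero w
  have hmp1 : ∀ w : WittVector p k, (w * (p : WittVector p k)).coeff 1 = w.coeff 0 ^ p :=
    fun w => WittVector.mul_charP_coeff_succ w 0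
  refine ⟨?_, ?_, ?_, ?_⟩
  · intro a
    refine ⟨WittVector.truncate 2 (WittVector.teichmuller p a), ?_⟩
    rw [hres, WittVector.teichmuller_coeff_zero]
  · have h1 : (p : TruncatedWittVector p 2 k)
        = WittVector.truncate 2 (1 * (p : WittVector p k)) := by
      rw [one_mul, map_natCast]
    rw [h1, hres, hmp0]
  · intro t ht
    obtain ⟨w, rfl⟩ := WittVector.truncate_surjective p 2 k t
    rw [hres] at ht
    obtain ⟨b, hb⟩ := (PerfectRing.bijective_frobenius (R := k) (p := p)).2 (w.coeff 1)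
    refine ⟨WittVector.truncate 2 (WittVector.teichmuller p b), ?_⟩
    rw [hmul]
    ext i
    rw [WittVector.coeff_truncate, WittVector.coeff_truncate]
    fin_cases i
    · show w.coeff 0 = (WittVector.teichmuller p b * (p : WittVector p k)).coeff 0
      rw [ht, hmp0]
    · show w.coeff 1 = (WittVector.teichmuller p b * (p : WittVector p k)).coeff 1
      rw [hmp1, WittVector.teichmuller_coeff_zero, ← hb]
  · intro t
    obtain ⟨w, rfl⟩ := WittVector.truncate_surjective p 2 k t
    rw [hmul, hres]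
    constructor
    · intro h
      have h1 : (WittVector.truncate 2 (w * (p : WittVector p k))).coeff (1 : Fin 2)
          = (0 : k) := by
        rw [h, ← map_zero (WittVector.truncate 2 : WittVector p k →+* _),
          WittVector.coeff_truncate, WittVector.zero_coeff]
      rw [WittVector.coeff_truncate] at h1
      have h2 : w.coeff 0 ^ p = 0 := by
        rw [← hmp1]
        exact h1
      exact pow_eq_zero_iff (Fact.out : p.Prime).ne_zero |>.mp h2
    · intro h
      rw [← map_zero (WittVector.truncate 2 : WittVector p k →+* _)]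
      ext i
      rw [WittVector.coeff_truncate, WittVector.coeff_truncate]
      fin_cases i
      · show (w * (p : WittVector p k)).coeff 0 = (0 : WittVector p k).coeff 0
        rw [hmp0, WittVector.zero_coeff]
      · show (w * (p : WittVector p k)).coeff 1 = (0 : WittVector p k).coeff 1
        rw [hmp1, h, WittVector.zero_coeff, zero_pow (Fact.out : p.Prime).ne_zero]


end Residue

section Functoriality


variable {p : ℕ} [hp : Fact p.Prime] {A B C : Type*} [CommRing A] [CommRing B] [CommRing C]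

theorem FrobSplit.mem_J (s : FrobSplit p A) (w : WittVector p A) :
    w ∈ s.J ↔ w.coeff 0 = 0 ∧ s.σ (w.coeff 1) = 0 := Iff.rfl

/-- functoriality of the lifting -/
noncomputable def FrobSplit.map (s : FrobSplit p A) (t : FrobSplit p B) (g : A →+* B)
    (hg : ∀ a, g (s.σ a) = t.σ (g a)) : s.T →+* t.T :=
  Ideal.quotientMap t.J (WittVector.map g) (by
    intro w hw
    rw [Ideal.mem_comap, FrobSplit.mem_J, WittVector.map_coeff, WittVector.map_coeff, hw.1,
      ← hg, hw.2, map_zero]
    exact ⟨rfl, rfl⟩)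

theorem FrobSplit.map_mk (s : FrobSplit p A) (t : FrobSplit p B) (g : A →+* B)
    (hg : ∀ a, g (s.σ a) = t.σ (g a)) (w : WittVector p A) :
    s.map t g hg (Ideal.Quotient.mk s.J w) = Ideal.Quotient.mk t.J (WittVector.map g w) := by
  unfold FrobSplit.map
  rw [Ideal.quotientMap_mk]

theorem FrobSplit.π_mk (s : FrobSplit p A) (w : WittVector p A) :
    s.π (Ideal.Quotient.mk s.J w) = w.coeff 0 := rfl

theorem FrobSplit.π_map (s : FrobSplit p A) (t : FrobSplit p B) (g : A →+* B)
    (hg : ∀ a, g (s.σ a) = t.σ (g a)) : t.π.comp (s.map t g hg) = g.comp s.π := by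
  apply Ideal.Quotient.ringHom_ext
  apply RingHom.ext
  intro w
  show t.π (s.map t g hg (Ideal.Quotient.mk s.J w)) = g (s.π (Ideal.Quotient.mk s.J w))
  rw [FrobSplit.map_mk, FrobSplit.π_mk, FrobSplit.π_mk, WittVector.map_coeff]

theorem FrobSplit.map_id (s : FrobSplit p A) (g : A →+* A)
    (hg : ∀ a, g (s.σ a) = s.σ (g a)) (h : g = RingHom.id A) :
    s.map s g hg = RingHom.id s.T := by
  apply Ideal.Quotient.ringHom_ext
  apply RingHom.ext
  intro w
  show s.map s g hg (Ideal.Quotient.mk s.J w) = Ideal.Quotient.mk s.J w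
  rw [FrobSplit.map_mk]
  congr 1
  ext n
  rw [WittVector.map_coeff, h]
  rfl

theorem FrobSplit.map_comp (s : FrobSplit p A) (t : FrobSplit p B) (v : FrobSplit p C)
    (g : A →+* B) (hg : ∀ a, g (s.σ a) = t.σ (g a)) (h : B →+* C)
    (hh : ∀ a, h (t.σ a) = v.σ (h a)) (f : A →+* C) (hf : ∀ a, f (s.σ a) = v.σ (f a))
    (hfgh : f = h.comp g) :
    s.map v f hf = (t.map v h hh).comp (s.map t g hg) := by
  apply Ideal.Quotient.ringHom_ext
  apply RingHom.ext
  intro w
  show s.map v f hf (Ideal.Quotient.mk s.J w) =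
    t.map v h hh (s.map t g hg (Ideal.Quotient.mk s.J w))
  rw [FrobSplit.map_mk, FrobSplit.map_mk, FrobSplit.map_mk]
  congr 1
  ext n
  rw [WittVector.map_coeff, WittVector.map_coeff, WittVector.map_coeff, hfgh]
  rfl

/-- The map `W₂(k) → W₂(A)/V(ker σ)` for a ring homomorphism `k → A`. -/
noncomputable def FrobSplit.ρ {k : Type*} [CommRing k] (s : FrobSplit p A) (α : k →+* A) :
    TruncatedWittVector p 2 k →+* s.T :=
  (WittVector.truncate 2 : WittVector p k →+* _).liftOfSurjective
    (WittVector.truncate_surjective p 2 k)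
    ⟨(Ideal.Quotient.mk s.J).comp (WittVector.map α), by
      intro w hw
      rw [WittVector.mem_ker_truncate] at hw
      rw [RingHom.mem_ker, RingHom.comp_apply, Ideal.Quotient.eq_zero_iff_mem, FrobSplit.mem_J,
        WittVector.map_coeff, WittVector.map_coeff, hw 0 (by norm_num), hw 1 (by norm_num),
        map_zero, map_zero]
      exact ⟨rfl, rfl⟩⟩

theorem FrobSplit.ρ_apply {k : Type*} [CommRing k] (s : FrobSplit p A) (α : k →+* A)
    (w : WittVector p k) :
    s.ρ α (WittVector.truncate 2 w) = Ideal.Quotient.mk s.J (WittVector.map α w) := by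
  unfold FrobSplit.ρ
  exact RingHom.liftOfRightInverse_comp_apply _ _ _ _ _

theorem FrobSplit.π_ρ {k : Type u} [Field k] (s : FrobSplit p A) (α : k →+* A) :
    s.π.comp (s.ρ α) = α.comp (residue p k) := by
  apply RingHom.ext
  intro x
  obtain ⟨w, rfl⟩ := WittVector.truncate_surjective p 2 k x
  rw [RingHom.comp_apply, RingHom.comp_apply, FrobSplit.ρ_apply, FrobSplit.π_mk,
    WittVector.map_coeff]
  show α (w.coeff 0) = α ((WittVector.truncate 2 w).coeff 0)
  rw [WittVector.coeff_truncate]
  rfl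

theorem FrobSplit.map_ρ {k : Type*} [CommRing k] (s : FrobSplit p A) (t : FrobSplit p B)
    (g : A →+* B) (hg : ∀ a, g (s.σ a) = t.σ (g a)) (α : k →+* A) (β : k →+* B)
    (h : g.comp α = β) : (s.map t g hg).comp (s.ρ α) = t.ρ β := by
  apply RingHom.ext
  intro x
  obtain ⟨w, rfl⟩ := WittVector.truncate_surjective p 2 k x
  rw [RingHom.comp_apply, FrobSplit.ρ_apply, FrobSplit.ρ_apply, FrobSplit.map_mk]
  congr 1
  ext n
  rw [WittVector.map_coeff, WittVector.map_coeff, WittVector.map_coeff, ← h]
  rfl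


end Functoriality

end Pool.Agent.Helper271.CT
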