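import Mathlib
import Pool.Agent.Helper271.CT.Witt

universe u

open AlgebraicGeometry CategoryTheory Limits

namespace Pool.Agent.Helper271.CT

/-- the ideal of denominators of `g` -/
def mem_of_height_one_den {A K : Type*} [CommRing A] [Field K] [Algebra A K] (g : K) : Ideal A where
  carrier := {a | ∃ b : A, algebraMap A K b = algebraMap A K a * g}
  add_mem' := by
    rintro a a' ⟨b, hb⟩ ⟨b', hb'⟩
    exact ⟨b + b', by rw [map_add, map_add, hb, hb', add_mul]⟩
  zero_mem' := ⟨0, by rw [map_zero, zero_mul]⟩
  smul_mem' := by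
    rintro c a ⟨b, hb⟩
    exact ⟨c * b, by rw [smul_eq_mul, map_mul, map_mul, hb, mul_assoc]⟩

theorem mem_of_height_one_mem {A K : Type*} [CommRing A] [Field K] [Algebra A K] (g : K) (a : A) :
    a ∈ mem_of_height_one_den (A := A) g ↔ ∃ b : A, algebraMap A K b = algebraMap A K a * g :=
  Iff.rfl

/-- algebraic Hartogs: a noetherian normal domain is the intersection of its localizations
at primes of height one. -/
theorem mem_of_height_one {A K : Type*} [CommRing A] [IsDomain A] [IsNoetherianRing A]
    [IsIntegrallyClosed A] [Field K] [Algebra A K] [IsFractionRing A K] (f : K)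
    (h : ∀ q : Ideal A, q.IsPrime → q.height = 1 → ∃ a s : A, s ∉ q ∧
      algebraMap A K s * f = algebraMap A K a) :
    ∃ a : A, algebraMap A K a = f := by
  classical
  by_contra hf
  let S : Set (Ideal A) := {J | ∃ c : A, (¬ ∃ a : A, algebraMap A K a = algebraMap A K c * f) ∧
    J = mem_of_height_one_den (A := A) (algebraMap A K c * f)}
  have hS : S.Nonempty := ⟨_, 1, by rwa [map_one, one_mul], rfl⟩
  obtain ⟨q, ⟨c, hc, hq⟩, hmax⟩ := (wellFounded_gt (α := Ideal A)).has_min S hS
  obtain ⟨g, hg⟩ : ∃ g : K, g = algebraMap A K c * f := ⟨_, rfl⟩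
  rw [← hg] at hc hq
  have hmem : ∀ a, a ∈ q ↔ ∃ b : A, algebraMap A K b = algebraMap A K a * g := by
    intro a
    rw [hq]
    exact mem_of_height_one_mem g a
  have hprime : q.IsPrime := by
    refine ⟨?_, ?_⟩
    · intro htop
      have h1 : (1 : A) ∈ q := by
        rw [htop]
        trivial
      rw [hmem, map_one, one_mul] at h1
      exact hc h1
    · intro a b hab
      by_contra hcon
      push Not at hcon
      obtain ⟨ha, hb⟩ := hcon
      have hb' : ¬ ∃ b' : A, algebraMap A K b' = algebraMap A K (b * c) * f := by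
        rw [hmem] at hb
        rw [map_mul, mul_assoc, ← hg]
        exact hb
      have h1 := hmax _ ⟨b * c, hb', rfl⟩
      have h2 : q ≤ mem_of_height_one_den (A := A) (algebraMap A K (b * c) * f) := by
        intro x hx
        obtain ⟨y, hy⟩ := (hmem x).1 hx
        rw [mem_of_height_one_mem]
        refine ⟨b * y, ?_⟩
        rw [map_mul, hy, map_mul, hg]
        ring
      have h3 : a ∈ mem_of_height_one_den (A := A) (algebraMap A K (b * c) * f) := by
        obtain ⟨y, hy⟩ := (hmem _).1 hab
        rw [mem_of_height_one_mem]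
        refine ⟨y, ?_⟩
        rw [hy, map_mul, map_mul, hg]
        ring
      exact h1 (lt_of_le_of_ne h2 (fun heq => ha (by rw [heq]; exact h3)))
  have hqne : q ≠ ⊥ := by
    obtain ⟨x, y, hy, hxy⟩ := IsFractionRing.div_surjective (A := A) g
    have hy0 : y ≠ 0 := nonZeroDivisors.ne_zero hy
    have h1 : y ∈ q := by
      rw [hmem]
      refine ⟨x, ?_⟩
      rw [← hxy]
      have : algebraMap A K y ≠ 0 := by
        rw [Ne, FaithfulSMul.algebraMap_eq_zero_iff]
        exact hy0
      field_simp
    intro hbot
    rw [hbot] at h1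
    exact hy0 h1
  have hinj : Function.Injective (algebraMap A K) := IsFractionRing.injective A K
  by_cases hcase : ∀ a ∈ q, ∃ b ∈ q, algebraMap A K b = algebraMap A K a * g
  · have hint : IsIntegral A g := by
      refine isIntegral_of_smul_mem_submodule (R := A) (A := K) (M := K)
        (Submodule.map (Algebra.linearMap A K) q) ?_ ?_ g ?_
      · intro hbot
        apply hqne
        rw [eq_bot_iff]
        intro x hx
        have h1 : Algebra.linearMap A K x ∈ Submodule.map (Algebra.linearMap A K) q := ⟨x, hx, rfl⟩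
        rw [hbot, Submodule.mem_bot, Algebra.linearMap_apply] at h1
        exact hinj (by rw [h1, map_zero])
      · exact Submodule.FG.map _ (IsNoetherian.noetherian q)
      · rintro _ ⟨a, ha, rfl⟩
        obtain ⟨b, hb, hba⟩ := hcase a ha
        refine ⟨b, hb, ?_⟩
        rw [Algebra.linearMap_apply, Algebra.linearMap_apply, hba, smul_eq_mul, mul_comm]
    exact hc (IsIntegrallyClosed.algebraMap_eq_of_integral hint)
  · push Not at hcase
    obtain ⟨t, ht, htq⟩ := hcase
    obtain ⟨u, hu⟩ := (hmem t).1 ht
    have huq : u ∉ q := fun hmu => htq u hmu hu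
    have hmin : q ∈ (Ideal.span {t}).minimalPrimes := by
      refine ⟨⟨hprime, ?_⟩, ?_⟩
      · rw [Ideal.span_singleton_le_iff_mem]
        exact ht
      · rintro p ⟨hp, htp⟩ hpq
        rw [Ideal.span_singleton_le_iff_mem] at htp
        intro a ha
        obtain ⟨b, hb⟩ := (hmem a).1 ha
        have h1 : a * u = b * t := by
          apply hinj
          rw [map_mul, map_mul, hu, hb]
          ring
        have h2 : a * u ∈ p := by
          rw [h1]
          exact p.mul_mem_left b htp
        rcases hp.mem_or_mem h2 with h3 | h3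
        · exact h3
        · exact absurd (hpq h3) huq
    have hle : q.height ≤ 1 := Ideal.height_le_one_of_isPrincipal_of_mem_minimalPrimes _ q hmin
    have hne : q.height ≠ 0 := by
      rw [Ne, Ideal.height_eq_zero_iff_eq_bot]
      exact hqne
    have hone : q.height = 1 := le_antisymm hle (Order.one_le_iff_ne_zero.2 hne)
    obtain ⟨a, s, hs, hsa⟩ := h q hprime hone
    apply hs
    rw [hmem]
    refine ⟨c * a, ?_⟩
    rw [map_mul, ← hsa, hg]
    ring



theorem section_of_codim_one {X : Scheme.{u}} [IsIntegral X] [IsLocallyNoetherian X]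
    (hnorm : ∀ x : X, IsIntegrallyClosed (X.presheaf.stalk x))
    (U : X.Opens) (hU : IsAffineOpen U) [Nonempty U] (f : X.functionField)
    (h : ∀ E : X, E ∈ U → ringKrullDim (X.presheaf.stalk E) = 1 → ∃ r : X.presheaf.stalk E,
      algebraMap (X.presheaf.stalk E) X.functionField r = f) :
    ∃ a : Γ(X, U), X.germToFunctionField U a = f := by
  have hmemU : ∀ y : PrimeSpectrum Γ(X, U), hU.fromSpec y ∈ U := fun y => (hU.isoSpec.inv _).2
  have : IsNoetherianRing Γ(X, U) := IsLocallyNoetherian.component_noetherian ⟨U, hU⟩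
  have hfr : IsFractionRing Γ(X, U) X.functionField :=
    functionField_isFractionRing_of_isAffineOpen X U hU
  have : IsIntegrallyClosed Γ(X, U) := by
    apply IsIntegrallyClosed.of_localization_maximal
    intro p _ hp
    let y : PrimeSpectrum Γ(X, U) := ⟨p, hp.isPrime⟩
    letI := TopCat.Presheaf.algebra_section_stalk X.presheaf (⟨hU.fromSpec y, hmemU y⟩ : U)
    have hl : IsLocalization.AtPrime (X.presheaf.stalk (hU.fromSpec y)) p :=
      hU.isLocalization_stalk' y (hmemU y)
    exact (hnorm (hU.fromSpec y)).of_equiv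
      (IsLocalization.algEquiv p.primeCompl (X.presheaf.stalk (hU.fromSpec y))
        (Localization.AtPrime p)).toRingEquiv
  refine mem_of_height_one (A := Γ(X, U)) (K := X.functionField) f ?_
  intro q hq hht
  let y : PrimeSpectrum Γ(X, U) := ⟨q, hq⟩
  letI := TopCat.Presheaf.algebra_section_stalk X.presheaf (⟨hU.fromSpec y, hmemU y⟩ : U)
  have hl : IsLocalization.AtPrime (X.presheaf.stalk (hU.fromSpec y)) q :=
    hU.isLocalization_stalk' y (hmemU y)
  have hd : ringKrullDim (X.presheaf.stalk (hU.fromSpec y)) = 1 := by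
    rw [IsLocalization.AtPrime.ringKrullDim_eq_height q, hht]
    rfl
  obtain ⟨r, hr⟩ := h (hU.fromSpec y) (hmemU y) hd
  obtain ⟨⟨a, s⟩, has⟩ := IsLocalization.surj q.primeCompl r
  have htow : ∀ z : Γ(X, U), algebraMap Γ(X, U) X.functionField z =
      algebraMap (X.presheaf.stalk (hU.fromSpec y)) X.functionField
        (algebraMap Γ(X, U) (X.presheaf.stalk (hU.fromSpec y)) z) := by
    intro z
    exact (Scheme.algebraMap_germ_eq_germToFunctionField (X := X) (hmemU y) z).symm
  refine ⟨a, s, s.2, ?_⟩
  rw [← hr, htow, htow, ← map_mul, mul_comm]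
  congr 1


theorem es_sub {X : Scheme.{u}} (U : X.Opens) (hU : ¬ Nonempty U) : Subsingleton Γ(X, U) := by
  have : U = ⊥ := by
    ext x
    simp only [TopologicalSpace.Opens.coe_bot, Set.mem_empty_iff_false, iff_false]
    exact fun hx => hU ⟨⟨x, hx⟩⟩
  exact CommRingCat.subsingleton_of_isTerminal (X.sheaf.isTerminalOfEqEmpty this)

theorem es_sec {X : Scheme.{u}} [IsIntegral X]
    [IsLocallyNoetherian X] (hnorm : ∀ x : X, IsIntegrallyClosed (X.presheaf.stalk x))
    (σ : X.functionField →+ X.functionField)
    (h : ∀ E : X, ringKrullDim (X.presheaf.stalk E) = 1 → ∀ g : X.presheaf.stalk E,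
      ∃ r : X.presheaf.stalk E, σ (algebraMap (X.presheaf.stalk E) X.functionField g) =
        algebraMap (X.presheaf.stalk E) X.functionField r)
    (U : X.Opens) (hU : IsAffineOpen U) [Nonempty U] (a : Γ(X, U)) :
    ∃ b : Γ(X, U), X.germToFunctionField U b = σ (X.germToFunctionField U a) := by
  apply section_of_codim_one hnorm U hU
  intro E hE hdim
  obtain ⟨r, hr⟩ := h E hdim (X.presheaf.germ U E hE a)
  refine ⟨r, ?_⟩
  rw [← hr, Scheme.algebraMap_germ_eq_germToFunctionField _ hE]

theorem es_one {p : ℕ} [Fact p.Prime] {X : Scheme.{u}} [IsIntegral X]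
    [IsLocallyNoetherian X] (hnorm : ∀ x : X, IsIntegrallyClosed (X.presheaf.stalk x))
    [CharP X.functionField p] (σ : X.functionField →+ X.functionField)
    (h1 : ∀ a b, σ (a ^ p * b) = a * σ b) (h2 : σ 1 = 1)
    (h : ∀ E : X, ringKrullDim (X.presheaf.stalk E) = 1 → ∀ g : X.presheaf.stalk E,
      ∃ r : X.presheaf.stalk E, σ (algebraMap (X.presheaf.stalk E) X.functionField g) =
        algebraMap (X.presheaf.stalk E) X.functionField r)
    (U : X.Opens) (hU : IsAffineOpen U) :
    ∃ S : FrobSplit p Γ(X, U), ∀ [Nonempty U] (a : Γ(X, U)),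
      X.germToFunctionField U (S.σ a) = σ (X.germToFunctionField U a) := by
  by_cases hn : Nonempty U
  · have hinj := X.germToFunctionField_injective U
    choose s hs using es_sec hnorm σ h U hU
    refine ⟨⟨⟨⟨s, ?_⟩, ?_⟩, ?_, ?_, ?_⟩, ?_⟩
    · apply hinj
      rw [hs, map_zero, map_zero]
    · intro a b
      apply hinj
      rw [hs, map_add, map_add, map_add]
      erw [hs, hs]
    · intro a b
      apply hinj
      show X.germToFunctionField U (s (a ^ p * b)) = X.germToFunctionField U (a * s b)
      rw [hs, map_mul (ConcreteCategory.hom (X.germToFunctionField U)) (a ^ p) b, map_pow, h1,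
        map_mul (ConcreteCategory.hom (X.germToFunctionField U)) a (s b), hs]
    · apply hinj
      show X.germToFunctionField U (s 1) = X.germToFunctionField U 1
      rw [hs, map_one, h2]
    · apply hinj
      rw [map_natCast, map_zero, CharP.cast_eq_zero]
    · intro _ a
      exact hs a
  · haveI := es_sub U hn
    exact ⟨⟨0, fun a b => Subsingleton.elim _ _, Subsingleton.elim _ _, Subsingleton.elim _ _⟩,
      fun {hne} => absurd hne hn⟩


theorem exists_splittings {p : ℕ} [Fact p.Prime] {X : Scheme.{u}} [IsIntegral X]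
    [IsLocallyNoetherian X] (hnorm : ∀ x : X, IsIntegrallyClosed (X.presheaf.stalk x))
    [CharP X.functionField p] (σ : X.functionField →+ X.functionField)
    (h1 : ∀ a b, σ (a ^ p * b) = a * σ b) (h2 : σ 1 = 1)
    (h : ∀ E : X, ringKrullDim (X.presheaf.stalk E) = 1 → ∀ g : X.presheaf.stalk E,
      ∃ r : X.presheaf.stalk E, σ (algebraMap (X.presheaf.stalk E) X.functionField g) =
        algebraMap (X.presheaf.stalk E) X.functionField r) :
    ∃ S : ∀ U : X.affineOpens, FrobSplit p Γ(X, U.1),
      ∀ (U V : X.affineOpens) (hUV : V.1 ≤ U.1) (a : Γ(X, U.1)),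
        (X.presheaf.map (homOfLE hUV).op).hom ((S U).σ a) =
          (S V).σ ((X.presheaf.map (homOfLE hUV).op).hom a) := by
  choose S hS using fun U : X.affineOpens => es_one hnorm σ h1 h2 h U.1 U.2
  refine ⟨S, fun U V hUV a => ?_⟩
  by_cases hn : Nonempty V.1
  · haveI hnU : Nonempty U.1 := hn.map (fun x => ⟨x.1, hUV x.2⟩)
    apply X.germToFunctionField_injective V.1
    have key : ∀ b : Γ(X, U.1), X.germToFunctionField V.1
        ((X.presheaf.map (homOfLE hUV).op).hom b) = X.germToFunctionField U.1 b := by
      intro b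
      have := X.presheaf.germ_res (homOfLE hUV) (genericPoint X)
        (((genericPoint_spec X).mem_open_set_iff V.1.isOpen).mpr (by simpa using hn))
      have h3 := congrArg (fun f => f.hom b) this
      exact h3
    rw [hS V, key, key, hS U]
  · haveI := es_sub V.1 hn
    exact Subsingleton.elim _ _


end Pool.Agent.Helper271.CT
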