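import Mathlib
import Pool.Agent.Helper271.CT.Defs
import Pool.Agent.Helper271.CT.Lift
import Pool.Agent.Helper271.CT.Witt
import Pool.Agent.Helper271.CT.Coord
import Pool.Agent.Helper271.CT.Forms
import Pool.Agent.Helper271.CT.Norm
import Pool.Agent.Helper271.CT.Glue

universe u

open AlgebraicGeometry CategoryTheory Limits ClusterLift

namespace Pool.Agent.Helper271.CT

section Lifting

variable {p : ℕ} [hp : Fact p.Prime] {k : Type u} [Field k] {X : Scheme.{u}}

/-- the restriction map on affine opens -/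
noncomputable abbrev resA {U V : X.affineOpens} (h : U ⟶ V) : Γ(X, V.1) →+* Γ(X, U.1) :=
  (X.presheaf.map (homOfLE (leOfHom h)).op).hom

variable (S : ∀ U : X.affineOpens, FrobSplit p Γ(X, U.1))
  (hS : ∀ (U V : X.affineOpens) (hUV : V.1 ≤ U.1) (a : Γ(X, U.1)),
        (X.presheaf.map (homOfLE hUV).op).hom ((S U).σ a) =
          (S V).σ ((X.presheaf.map (homOfLE hUV).op).hom a))

include hS in
omit hp in
theorem hS' {U V : X.affineOpens} (h : U ⟶ V) (a : Γ(X, V.1)) :
    resA h ((S V).σ a) = (S U).σ (resA h a) := hS V U (leOfHom h) a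

/-- the transition maps of the liftings of the affine opens -/
noncomputable def mapA {U V : X.affineOpens} (h : U ⟶ V) : (S V).T →+* (S U).T :=
  (S V).map (S U) (resA h) (hS' S hS h)

theorem mapA_id (U : X.affineOpens) : mapA S hS (𝟙 U) = RingHom.id _ := by
  apply FrobSplit.map_id
  have : (X.presheaf.map (homOfLE (leOfHom (𝟙 U))).op) = 𝟙 (Γ(X, U.1)) := X.presheaf.map_id _
  simp only [resA, this]
  rfl

theorem mapA_comp {U V W : X.affineOpens} (f : U ⟶ V) (g : V ⟶ W) :
    mapA S hS (f ≫ g) = (mapA S hS f).comp (mapA S hS g) := by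
  apply FrobSplit.map_comp
  have : (X.presheaf.map (homOfLE (leOfHom (f ≫ g))).op) =
    X.presheaf.map (homOfLE (leOfHom g) : V.1 ⟶ W.1).op ≫
      X.presheaf.map (homOfLE (leOfHom f) : U.1 ⟶ V.1).op := by
    rw [← X.presheaf.map_comp]; rfl
  simp only [resA]
  rw [this]
  rfl

/-- the diagram of the liftings of the affine opens -/
noncomputable def diagramF : X.affineOpens ⥤ Scheme.{u} where
  obj U := Spec (CommRingCat.of (S U).T)
  map {U V} h := Spec.map (CommRingCat.ofHom (mapA S hS h))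
  map_id U := by
    rw [mapA_id]
    exact Spec.map_id _
  map_comp {U V W} f g := by
    rw [← Spec.map_comp, ← CommRingCat.ofHom_comp, mapA_comp]

/-- the inclusion of an affine open in its lifting -/
noncomputable def etaF (U : X.affineOpens) :
    (U.1 : Scheme.{u}) ⟶ Spec (CommRingCat.of (S U).T) :=
  U.1.toSpecΓ ≫ Spec.map (CommRingCat.ofHom (S U).π)

theorem etaF_naturality {U V : X.affineOpens} (h : U ⟶ V) :
    X.homOfLE (leOfHom h) ≫ etaF S V =
      etaF S U ≫ Spec.map (CommRingCat.ofHom (mapA S hS h)) := by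
  have h1 := Scheme.Opens.toSpecΓ_SpecMap_presheaf_map U.1 V.1 (leOfHom h)
  rw [etaF, etaF, ← Category.assoc, ← h1, Category.assoc, Category.assoc]
  congr 1
  change Spec.map (CommRingCat.ofHom (resA h)) ≫ _ = _
  rw [← Spec.map_comp, ← Spec.map_comp, ← CommRingCat.ofHom_comp, ← CommRingCat.ofHom_comp]
  congr 2
  exact (FrobSplit.π_map _ _ _ _).symm

instance isIso_toSpecΓ (U : X.affineOpens) : IsIso U.1.toSpecΓ := by
  rw [← IsAffineOpen.isoSpec_hom U.2]
  infer_instance

theorem etaF_bijective (U : X.affineOpens) : Function.Bijective (etaF S U) := by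
  rw [etaF, Scheme.Hom.comp_base]
  refine Function.Bijective.comp (f := U.1.toSpecΓ) (S U).isLift.bijective_comap ?_
  exact (Scheme.homeoOfIso (asIso U.1.toSpecΓ)).bijective

theorem resA_isOpenImmersion {U V : X.affineOpens} (h : U ⟶ V) :
    IsOpenImmersion (Spec.map (X.presheaf.map (homOfLE (leOfHom h) : U.1 ⟶ V.1).op)) := by
  have h1 := Scheme.Opens.toSpecΓ_SpecMap_presheaf_map U.1 V.1 (leOfHom h)
  rw [← IsIso.eq_inv_comp] at h1
  rw [h1]
  infer_instance

theorem map_isOpenImmersion {U V : X.affineOpens} (h : U ⟶ V) :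
    IsOpenImmersion (Spec.map (CommRingCat.ofHom (mapA S hS h))) := by
  have h3 : (S U).π.comp (mapA S hS h) = (resA h).comp (S V).π := FrobSplit.π_map _ _ _ _
  have h4 : IsOpenImmersion (Spec.map (CommRingCat.ofHom (resA h))) := resA_isOpenImmersion h
  exact IsLift.isOpenImmersion (S V).isLift (S U).isLift (mapA S hS h) (resA h) h3 h4

/-- restriction from the top -/
noncomputable abbrev resT (U : X.affineOpens) : Γ(X, ⊤) ⟶ Γ(X, U.1) :=
  X.presheaf.map (homOfLE (le_top : U.1 ≤ ⊤)).op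

theorem resT_comp {U V : X.affineOpens} (h : U ⟶ V) :
    resT V ≫ X.presheaf.map (homOfLE (leOfHom h) : U.1 ⟶ V.1).op = resT U := by
  rw [resT, resT, ← X.presheaf.map_comp]; rfl

/-- the structure map `k → Γ(X, U)` -/
noncomputable def alphaA (s : X ⟶ Spec (CommRingCat.of k)) (U : X.affineOpens) : k →+* Γ(X, U.1) :=
  ((Scheme.ΓSpecIso (CommRingCat.of k)).inv ≫ s.appTop ≫ resT U).hom

theorem resA_comp_alphaA (s : X ⟶ Spec (CommRingCat.of k)) {U V : X.affineOpens} (h : U ⟶ V) :
    (resA h).comp (alphaA s V) = alphaA s U := by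
  rw [resA, alphaA, alphaA, ← CommRingCat.hom_comp, Category.assoc, Category.assoc]
  have h1 := resT_comp h
  exact congrArg (fun q => ((Scheme.ΓSpecIso (CommRingCat.of k)).inv ≫ s.appTop ≫ q).hom) h1

theorem opens_ι_comp (s : X ⟶ Spec (CommRingCat.of k)) (U : X.affineOpens) :
    U.1.ι ≫ s = U.1.toSpecΓ ≫ Spec.map (CommRingCat.ofHom (alphaA s U)) := by
  have h0 : CommRingCat.ofHom (alphaA s U) = (Scheme.ΓSpecIso (CommRingCat.of k)).inv ≫ s.appTop ≫
    resT U := rfl
  have h1 : U.1.toSpecΓ ≫ Spec.map (resT U) = U.1.ι ≫ X.toSpecΓ :=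
    Scheme.Opens.toSpecΓ_SpecMap_presheaf_map_top U.1
  have h2 : X.toSpecΓ ≫ Spec.map s.appTop = s ≫ (Spec (CommRingCat.of k)).toSpecΓ :=
    (Scheme.toSpecΓ_naturality s).symm
  have h3 : (Spec (CommRingCat.of k)).toSpecΓ ≫ Spec.map (Scheme.ΓSpecIso (CommRingCat.of k)).inv
    = 𝟙 _ := toSpecΓ_SpecMap_ΓSpecIso_inv _
  calc U.1.ι ≫ s = U.1.ι ≫ s ≫ (Spec (CommRingCat.of k)).toSpecΓ ≫
        Spec.map (Scheme.ΓSpecIso (CommRingCat.of k)).inv := by rw [h3, Category.comp_id]
    _ = U.1.ι ≫ (s ≫ (Spec (CommRingCat.of k)).toSpecΓ) ≫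
        Spec.map (Scheme.ΓSpecIso (CommRingCat.of k)).inv := by rw [Category.assoc]
    _ = (U.1.ι ≫ X.toSpecΓ) ≫ Spec.map s.appTop ≫
        Spec.map (Scheme.ΓSpecIso (CommRingCat.of k)).inv := by
          rw [← h2, Category.assoc, Category.assoc]
    _ = _ := by rw [← h1, h0, Spec.map_comp, Spec.map_comp, Category.assoc, Category.assoc]

variable [CharP k p] [PerfectRing k p]

/-- the structure maps of the liftings over `W₂(k)` -/
noncomputable def cA (s : X ⟶ Spec (CommRingCat.of k)) (U : X.affineOpens) :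
    Spec (CommRingCat.of (S U).T) ⟶ Spec (CommRingCat.of (TruncatedWittVector p 2 k)) :=
  Spec.map (CommRingCat.ofHom ((S U).ρ (alphaA s U)))

omit [CharP k p] [PerfectRing k p] in
theorem map_cA (s : X ⟶ Spec (CommRingCat.of k)) {U V : X.affineOpens} (h : U ⟶ V) :
    Spec.map (CommRingCat.ofHom (mapA S hS h)) ≫ cA S s V = cA S s U := by
  rw [cA, cA, ← Spec.map_comp, ← CommRingCat.ofHom_comp]
  congr 2
  exact FrobSplit.map_ρ _ _ _ _ _ _ (resA_comp_alphaA s h)

theorem etaF_isPullback (s : X ⟶ Spec (CommRingCat.of k)) (U : X.affineOpens) :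
    IsPullback (etaF S U) (U.1.ι ≫ s) (cA S s U)
      (Spec.map (CommRingCat.ofHom (residue p k))) := by
  have h1 := IsLift.isPullback (isLift_residue p k) (S U).isLift ((S U).ρ (alphaA s U))
    (alphaA s U) (FrobSplit.π_ρ (S U) (alphaA s U))
  have h2 : IsPullback U.1.toSpecΓ (U.1.ι ≫ s)
      (Spec.map (CommRingCat.ofHom (alphaA s U))) (𝟙 _) :=
    IsPullback.of_horiz_isIso ⟨by rw [Category.comp_id, opens_ι_comp]⟩
  have h3 := h2.paste_horiz h1
  rw [Category.id_comp] at h3
  exact h3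

theorem lifts_of_splittings (s : X ⟶ Spec (CommRingCat.of k))
    (S : ∀ U : X.affineOpens, FrobSplit p Γ(X, U.1))
    (hS : ∀ (U V : X.affineOpens) (hUV : V.1 ≤ U.1) (a : Γ(X, U.1)),
        (X.presheaf.map (homOfLE hUV).op).hom ((S U).σ a) =
          (S V).σ ((X.presheaf.map (homOfLE hUV).op).hom a)) :
    LiftsOverW2 p s := by
  obtain ⟨X', f, i, ι, h1, h2, h3, h4⟩ := glue_thickening (S := Spec (CommRingCat.of k))
    (S' := Spec (CommRingCat.of (TruncatedWittVector p 2 k))) (diagramF S hS)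
    (fun h => map_isOpenImmersion S hS h) (etaF S) (fun h => etaF_naturality S hS h)
    (etaF_bijective S) s (Spec.map (CommRingCat.ofHom (residue p k))) (cA S s)
    (fun h => map_cA S hS s h) (etaF_isPullback S s)
  refine ⟨X', f, i, ?_, h4⟩
  have hι : ∀ U, IsOpenImmersion (ι U) := h1
  let 𝒰 : X'.OpenCover := Scheme.Cover.mkOfCovers (X.affineOpens) _ ι
    (fun x => by obtain ⟨U, y, hy⟩ := h2 x; exact ⟨U, y, hy⟩) hι
  have hloc : IsZariskiLocalAtSource (@Flat : MorphismProperty Scheme.{u}) :=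
    HasRingHomProperty.instIsZariskiLocalAtSource (Q := RingHom.Flat)
  refine (IsZariskiLocalAtSource.iff_of_openCover (P := (@Flat : MorphismProperty Scheme.{u})) 𝒰).mpr ?_
  intro U'
  obtain ⟨U, hU⟩ : ∃ U : X.affineOpens, U = U' := ⟨U', rfl⟩
  have h5 : Flat (cA S s U) := by
    rw [cA, Flat.SpecMap_iff]
    exact IsLift.flat (isLift_residue p k) (S U).isLift _ (alphaA s U) (FrobSplit.π_ρ (S U) _)
  have h6 : Flat (ι U ≫ f) := by rw [h3 U]; exact h5
  subst hU
  exact h6

end Lifting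

end Pool.Agent.Helper271.CT
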