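import Mathlib
import Pool.Agent.Helper271.CT.Main

universe u

open AlgebraicGeometry CategoryTheory Limits ClusterLift

namespace Pool.Agent.Helper271.CT

theorem isDVR_of_dim_one (R : Type u) [CommRing R] [IsDomain R] [IsLocalRing R]
    [IsNoetherianRing R] [IsIntegrallyClosed R] (h : ringKrullDim R = 1) :
    IsDiscreteValuationRing R := by
  have h0 : Ring.KrullDimLE 1 R := Ring.krullDimLE_iff.mpr h.le
  have h1 : Ring.DimensionLEOne R :=
    ⟨fun {I} h1 h2 => Ring.krullDimLE_one_iff_of_noZeroDivisors.mp h0 I h1 h2⟩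
  have h2 : ¬ IsField R := by
    intro hf
    rw [ringKrullDim_eq_zero_of_isField hf] at h
    exact absurd h (by norm_num)
  have : IsDedekindDomain R := {  }
  exact ((IsDiscreteValuationRing.TFAE R h2).out 0 2).mpr this

theorem main_theorem (p : ℕ) [Fact p.Prime] {k : Type u} [Field k] [CharP k p] [PerfectField k]
    {X : Scheme.{u}} (s : X ⟶ Spec (CommRingCat.of k)) [IsIntegral X] [LocallyOfFiniteType s]
    (hX : ∀ x : X, IsIntegrallyClosed (X.presheaf.stalk x))
    {n : ℕ} (x : Fin n → X.functionField) (hx : IsBirationalCoordinates s x)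
    (B : X → ℤ) (hB : IsPolarDivisor s x B)
    (hB0 : ∀ E : X, ringKrullDim (X.presheaf.stalk E) = 1 → 0 ≤ B E) :
    LiftsOverW2 p s := by
  have hN : IsLocallyNoetherian X := LocallyOfFiniteType.isLocallyNoetherian s
  letI := functionFieldAlgebra s
  haveI : CharP X.functionField p := charP_of_injective_algebraMap
    (algebraMap k X.functionField).injective p
  haveI : PerfectRing k p := PerfectField.toPerfectRing p
  obtain ⟨P, hP⟩ := PCoord.exists_of_adjoin (p := p) (k := k) x hx.1 hx.2
  subst hP
  obtain ⟨σ, h1, h2, h3⟩ := P.main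
  obtain ⟨S, hS⟩ := exists_splittings (p := p) hX σ h1 h2 (by
    intro E hE g
    haveI := hX E
    haveI : IsNoetherianRing (X.presheaf.stalk E) := inferInstance
    haveI : IsDiscreteValuationRing (X.presheaf.stalk E) := isDVR_of_dim_one _ hE
    refine h3 (X.presheaf.stalk E) ?_ g
    intro y
    obtain ⟨t, ht⟩ := IsDiscreteValuationRing.exists_irreducible (X.presheaf.stalk E)
    obtain ⟨r, hr⟩ := (hB E hE t ht).1 y
    refine ⟨r * t ^ (B E).toNat, ?_⟩
    have hr' := P.det_of_topForm _ _ hr
    unfold toK at hr'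
    rw [hr', map_mul, map_pow, ← zpow_natCast, Int.toNat_of_nonneg (hB0 E hE)])
  exact lifts_of_splittings s S hS

end Pool.Agent.Helper271.CT
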